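import Mathlib

/-!
# Thue's lemma and the factorisation of `η^j - τ`
-/

set_option autoImplicit false

namespace Pool.Agent.H18.LC

/-- Thue's lemma for a linear form. -/
lemma thue (U z0 z1 : ℤ) (hU : 0 < U) :
    ∃ b0 b1 : ℤ, (b0 ≠ 0 ∨ b1 ≠ 0) ∧ U ∣ b0 * z0 + b1 * z1 ∧ b0 ^ 2 ≤ U ∧ b1 ^ 2 ≤ U := by
  classical
  obtain ⟨u, rfl⟩ : ∃ u : ℕ, U = u := ⟨U.toNat, by omega⟩
  have hu : 0 < u := by exact_mod_cast hU
  set h := Nat.sqrt u with hh
  have h1 : h * h ≤ u := Nat.sqrt_le u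
  have h2 : u < (h + 1) * (h + 1) := Nat.lt_succ_sqrt u
  let f : ℕ × ℕ → ℤ := fun p => ((p.1 : ℤ) * z0 + p.2 * z1) % u
  obtain ⟨a, ha, b, hb, hab, he⟩ := Finset.exists_ne_map_eq_of_card_lt_of_maps_to
    (s := Finset.range (h + 1) ×ˢ Finset.range (h + 1))
    (t := (Finset.range u).image (fun n : ℕ => (n : ℤ))) (f := f)
    (by
      rw [Finset.card_product, Finset.card_range, Finset.card_image_of_injective _
        Nat.cast_injective, Finset.card_range]
      exact h2)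
    (by
      intro p _
      simp only [Finset.coe_image, Finset.coe_range, Set.mem_image, Set.mem_Iio]
      have e1 : 0 ≤ f p := Int.emod_nonneg _ (by omega)
      have e2 : f p < u := Int.emod_lt_of_pos _ (by omega)
      exact ⟨(f p).toNat, by omega, by omega⟩)
  rw [Finset.mem_product, Finset.mem_range, Finset.mem_range] at ha hb
  refine ⟨(a.1 : ℤ) - b.1, (a.2 : ℤ) - b.2, ?_, ?_, ?_, ?_⟩
  · by_contra hc
    push Not at hc
    apply hab
    ext
    · omega
    · omega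
  · have := Int.ModEq.dvd (show _ ≡ _ [ZMOD u] from he.symm)
    have e : ((a.1 : ℤ) - b.1) * z0 + ((a.2 : ℤ) - b.2) * z1 =
      ((a.1 : ℤ) * z0 + a.2 * z1) - ((b.1 : ℤ) * z0 + b.2 * z1) := by ring
    rw [e]; exact this
  · have e : |(a.1 : ℤ) - b.1| ≤ h := by
      rw [abs_le]; constructor <;> omega
    have e2 : ((a.1 : ℤ) - b.1) ^ 2 ≤ (h : ℤ) ^ 2 := by
      rw [← sq_abs]; exact pow_le_pow_left₀ (abs_nonneg _) e 2
    have e3 : ((h : ℤ)) ^ 2 ≤ u := by rw [sq]; exact_mod_cast h1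
    exact e2.trans e3
  · have e : |(a.2 : ℤ) - b.2| ≤ h := by
      rw [abs_le]; constructor <;> omega
    have e2 : ((a.2 : ℤ) - b.2) ^ 2 ≤ (h : ℤ) ^ 2 := by
      rw [← sq_abs]; exact pow_le_pow_left₀ (abs_nonneg _) e 2
    have e3 : ((h : ℤ)) ^ 2 ≤ u := by rw [sq]; exact_mod_cast h1
    exact e2.trans e3

/-- two-step induction for the factorisation -/
lemma fac_aux (T : ℤ) (τ : ℤ) (r : ℕ) (p q : ℤ)
    (h0 : ∃ U : ℤ, ∀ z : ℕ → ℝ, (∀ k, z (k + 2) = T * z (k + 1) - z k) →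
      z r - τ * z 0 = U * (p * z 1 + q * z 0))
    (h1 : ∃ U : ℤ, ∀ z : ℕ → ℝ, (∀ k, z (k + 2) = T * z (k + 1) - z k) →
      z (r + 2) - τ * z 0 = U * (p * z 2 + q * z 1)) (i : ℕ) :
    ∃ U : ℤ, ∀ z : ℕ → ℝ, (∀ k, z (k + 2) = T * z (k + 1) - z k) →
      z (r + 2 * i) - τ * z 0 = U * (p * z (i + 1) + q * z i) := by
  induction i using Nat.twoStepInduction with
  | zero => simpa using h0
  | one => simpa using h1
  | more i ih0 ih1 =>
    obtain ⟨U0, hU0⟩ := ih0
    obtain ⟨U1, hU1⟩ := ih1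
    refine ⟨T * U1 - U0, fun z hz => ?_⟩
    have a1 := hU1 (fun k => z (k + 1)) (fun k => hz (k + 1))
    have a0 := hU0 (fun k => z (k + 2)) (fun k => hz (k + 2))
    have b1 := hz (r + 2 * (i + 1))
    have b2 := hz 0
    simp only [Nat.zero_add] at a0 a1 b2
    have e1 : r + 2 * (i + 1) + 1 = r + 2 * (i + 1) + 1 := rfl
    have e2 : r + 2 * i + 2 = r + 2 * (i + 1) := by ring
    have e3 : r + 2 * (i + 2) = r + 2 * (i + 1) + 2 := by ring
    have e4 : i + 1 + 1 + 1 = i + 2 + 1 := by ring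
    have e5 : i + 1 + 1 = i + 2 := by ring
    have e6 : i + 1 + 2 = i + 2 + 1 := by ring
    rw [e2] at a0
    rw [e3]
    push_cast
    rw [e6] at a0
    rw [e4, e5] at a1
    linear_combination b1 + (T : ℝ) * a1 - a0 - (τ : ℝ) * b2

/-- **Factorisation**: `η^j - τ` is an integer times something small. -/
lemma fac (T : ℤ) (τ : ℤ) (hτ : τ = 1 ∨ τ = -1) (j : ℕ) :
    ∃ U p q : ℤ, |p| ≤ 2 ∧ |q| ≤ |T| + 1 ∧
      ∀ z : ℕ → ℝ, (∀ k, z (k + 2) = T * z (k + 1) - z k) →
        z j - τ * z 0 = U * (p * z (j / 2 + 1) + q * z (j / 2)) := by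
  have hT := abs_nonneg T
  rcases Nat.even_or_odd' j with ⟨i, rfl | rfl⟩
  · have e : 2 * i / 2 = i := by omega
    rw [e]
    rcases hτ with rfl | rfl
    · obtain ⟨U, hU⟩ := fac_aux T 1 0 2 (-T) ⟨0, fun z hz => by simp⟩ ⟨1, fun z hz => by
        have := hz 0
        simp only [Nat.zero_add] at this ⊢
        push_cast
        linear_combination (-1 : ℝ) * this⟩ i
      refine ⟨U, 2, -T, by norm_num, by rw [abs_neg]; omega, fun z hz => ?_⟩
      have := hU z hz
      rw [Nat.zero_add] at this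
      exact this
    · obtain ⟨U, hU⟩ := fac_aux T (-1) 0 0 1 ⟨2, fun z hz => by push_cast; ring⟩ ⟨T, fun z hz => by
        have := hz 0
        simp only [Nat.zero_add] at this ⊢
        push_cast
        linear_combination this⟩ i
      refine ⟨U, 0, 1, by norm_num, by rw [abs_one]; omega, fun z hz => ?_⟩
      have := hU z hz
      rw [Nat.zero_add] at this
      exact this
  · have e : (2 * i + 1) / 2 = i := by omega
    rw [e]
    have e2 : 2 * i + 1 = 1 + 2 * i := by ring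
    rw [e2]
    rcases hτ with rfl | rfl
    · obtain ⟨U, hU⟩ := fac_aux T 1 1 1 (-1) ⟨1, fun z hz => by push_cast; ring⟩
        ⟨T + 1, fun z hz => by
        have h0 := hz 0
        have h1 := hz 1
        simp only [Nat.zero_add, Nat.reduceAdd] at h0 h1 ⊢
        push_cast
        linear_combination h1 - h0⟩ i
      exact ⟨U, 1, -1, by norm_num, by rw [abs_neg, abs_one]; omega, hU⟩
    · obtain ⟨U, hU⟩ := fac_aux T (-1) 1 1 1 ⟨1, fun z hz => by push_cast; ring⟩
        ⟨T - 1, fun z hz => by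
        have h0 := hz 0
        have h1 := hz 1
        simp only [Nat.zero_add, Nat.reduceAdd] at h0 h1 ⊢
        push_cast
        linear_combination h1 + h0⟩ i
      exact ⟨U, 1, 1, by norm_num, by rw [abs_one]; omega, hU⟩

end Pool.Agent.H18.LC
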