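import Pool.Agent.H18.LC.Window

/-!
# Lagrange's theorem for the minus continued fraction
-/

set_option autoImplicit false

namespace Pool.Agent.H18.LC

open Pool.Agent.H1.PC

/-- A root of an integer quadratic polynomial with small coefficients lies in a finite set. -/
lemma roots_finite (Z : ℤ) : {x : ℝ | ∃ A B C : ℤ, |A| ≤ Z ∧ |B| ≤ Z ∧ |C| ≤ Z ∧ A ≠ 0 ∧
    (A : ℝ) * x ^ 2 - B * x + C = 0}.Finite := by
  have hfin : ((Set.Icc (-Z) Z ×ˢ (Set.Icc (-Z) Z ×ˢ Set.Icc (-Z) Z)) ×ˢ
      ({1, -1} : Set ℤ) : Set ((ℤ × ℤ × ℤ) × ℤ)).Finite :=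
    (((Set.finite_Icc _ _).prod ((Set.finite_Icc _ _).prod (Set.finite_Icc _ _)))).prod
      (Set.toFinite _)
  refine (hfin.image (fun t : (ℤ × ℤ × ℤ) × ℤ => ((t.1.2.1 : ℝ) +
    t.2 * Real.sqrt ((t.1.2.1 : ℝ) ^ 2 - 4 * t.1.1 * t.1.2.2)) / (2 * t.1.1))).subset ?_
  rintro x ⟨A, B, C, hA, hB, hC, hA0, h⟩
  have hAR : (A : ℝ) ≠ 0 := by exact_mod_cast hA0
  have hsq : (2 * A * x - B) ^ 2 = (B : ℝ) ^ 2 - 4 * A * C := by
    linear_combination 4 * (A : ℝ) * h
  have hs : Real.sqrt ((B : ℝ) ^ 2 - 4 * A * C) = |2 * A * x - B| := by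
    rw [← hsq, Real.sqrt_sq_eq_abs]
  rcases le_total 0 (2 * A * x - B) with h0 | h0
  · refine ⟨((A, B, C), 1), ⟨⟨abs_le.1 hA, abs_le.1 hB, abs_le.1 hC⟩, by simp⟩, ?_⟩
    simp only [Int.cast_one, one_mul]
    rw [hs, abs_of_nonneg h0]
    field_simp
    ring
  · refine ⟨((A, B, C), -1), ⟨⟨abs_le.1 hA, abs_le.1 hB, abs_le.1 hC⟩, by simp⟩, ?_⟩
    simp only [Int.cast_neg, Int.cast_one, neg_mul, one_mul]
    rw [hs, abs_of_nonpos h0]
    field_simp
    ring

/-- The minus continued fraction of a badly approximable quadratic number is eventually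
periodic. -/
lemma lagrange {α : ℝ} (hα : Irrational α) {δ : ℝ} (hδ : 0 < δ)
    (hbad : ∀ q : ℕ, 0 < q → ∀ p : ℤ, δ ≤ (q : ℝ) * |(q : ℝ) * α - p|)
    {a b c : ℤ} (ha : a ≠ 0) (hq : (a : ℝ) * α ^ 2 + b * α + c = 0) :
    ∃ k0 m0 : ℕ, 1 ≤ m0 ∧ ∀ k, k0 ≤ k → pq α (k + m0) = pq α k := by
  set κ : ℝ := 1 + (1 + 1 / δ) / δ + 1 / δ with hκ
  have hκ0 : 0 < κ := by positivity
  set w : ℝ := 2 * a * α + b with hw
  set W : ℝ := |w| * (1 / δ + κ) + 2 * |(a : ℝ)| with hW
  obtain ⟨Z, hZ⟩ := exists_nat_ge W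
  have hth1 : ∀ k, th α k ≤ 1 := by
    intro k
    have h0 : th α 0 = 1 := by simp [th, num, den]
    rw [← h0]
    exact th_anti hα (Nat.zero_le _)
  have hthp : ∀ k, 0 < th α k := fun k => (th_pos hα k).1
  have hQ : ∀ k, (0 : ℝ) ≤ den α k := den_cast_nonneg hα
  have hQθ : ∀ k, (den α k : ℝ) * th α k ≤ 1 / δ := fun k => (step_facts hα hδ hbad k).2.2
  have hnum : ∀ k, (num α k : ℝ) = den α k * α + th α k := by
    intro k; unfold th; ring
  -- the quadratic form at the convergents
  have hF : ∀ k, |((a * num α k ^ 2 + b * (num α k * den α k) + c * den α k ^ 2 : ℤ) : ℝ)| ≤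
      W := by
    intro k
    have e : ((a * num α k ^ 2 + b * (num α k * den α k) + c * den α k ^ 2 : ℤ) : ℝ) =
        w * (den α k * th α k) + a * (th α k * th α k) := by
      push_cast
      rw [hnum k, hw]
      linear_combination (den α k : ℝ) ^ 2 * hq
    rw [e]
    refine (abs_add_le _ _).trans ?_
    rw [abs_mul, abs_mul (a : ℝ), abs_of_nonneg (mul_nonneg (hQ k) (hthp k).le),
      abs_of_nonneg (mul_nonneg (hthp k).le (hthp k).le)]
    have h1 : |w| * (den α k * th α k) ≤ |w| * (1 / δ + κ) :=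
      mul_le_mul_of_nonneg_left (by have := hQθ k; linarith) (abs_nonneg _)
    have h2 : |(a : ℝ)| * (th α k * th α k) ≤ |(a : ℝ)| * 1 :=
      mul_le_mul_of_nonneg_left (mul_le_one₀ (hth1 k) (hthp k).le (hth1 k)) (abs_nonneg _)
    have h3 := abs_nonneg (a : ℝ)
    rw [hW]; linarith
  have hB : ∀ k, |((2 * a * (num α k * num α (k + 1)) +
      b * (num α k * den α (k + 1) + num α (k + 1) * den α k) +
      2 * c * (den α k * den α (k + 1)) : ℤ) : ℝ)| ≤ W := by
    intro k
    have e : ((2 * a * (num α k * num α (k + 1)) +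
      b * (num α k * den α (k + 1) + num α (k + 1) * den α k) +
      2 * c * (den α k * den α (k + 1)) : ℤ) : ℝ) =
        w * (den α k * th α (k + 1) + den α (k + 1) * th α k) +
          2 * a * (th α k * th α (k + 1)) := by
      push_cast
      rw [hnum k, hnum (k + 1), hw]
      linear_combination 2 * (den α k : ℝ) * den α (k + 1) * hq
    rw [e]
    refine (abs_add_le _ _).trans ?_
    have n1 : 0 ≤ (den α k : ℝ) * th α (k + 1) + den α (k + 1) * th α k :=
      add_nonneg (mul_nonneg (hQ k) (hthp _).le) (mul_nonneg (hQ _) (hthp k).le)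
    rw [abs_mul, abs_mul (2 * (a : ℝ)), abs_mul (2 : ℝ), abs_of_nonneg n1,
      abs_of_nonneg (mul_nonneg (hthp k).le (hthp (k + 1)).le), abs_two]
    have m1 : (den α k : ℝ) * th α (k + 1) ≤ 1 / δ := by
      have h1 : (den α k : ℝ) * th α (k + 1) ≤ den α k * th α k :=
        mul_le_mul_of_nonneg_left (th_anti hα (by omega)) (hQ k)
      exact h1.trans (hQθ k)
    have m2 : (den α (k + 1) : ℝ) * th α k ≤ κ := by
      have h1 := prod_bound hα hδ hbad k
      have h2 : (den α (k + 1) : ℝ) * th α k ≤ den α (k + 2) * th α k :=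
        mul_le_mul_of_nonneg_right (den_cast_mono hα (by omega)) (hthp k).le
      exact h2.trans h1
    have h1 : |w| * ((den α k : ℝ) * th α (k + 1) + den α (k + 1) * th α k) ≤
        |w| * (1 / δ + κ) := mul_le_mul_of_nonneg_left (by linarith) (abs_nonneg _)
    have h2 : 2 * |(a : ℝ)| * (th α k * th α (k + 1)) ≤ 2 * |(a : ℝ)| * 1 :=
      mul_le_mul_of_nonneg_left (mul_le_one₀ (hth1 k) (hthp _).le (hth1 _)) (by positivity)
    rw [hW]; linarith
  -- all complete quotients lie in a finite set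
  have hmem : ∀ k, cquot α (k + 1) ∈ {x : ℝ | ∃ A B C : ℤ, |A| ≤ (Z : ℤ) ∧ |B| ≤ (Z : ℤ) ∧
      |C| ≤ (Z : ℤ) ∧ A ≠ 0 ∧ (A : ℝ) * x ^ 2 - B * x + C = 0} := by
    intro k
    refine ⟨a * num α (k + 1) ^ 2 + b * (num α (k + 1) * den α (k + 1)) + c * den α (k + 1) ^ 2,
      2 * a * (num α k * num α (k + 1)) +
      b * (num α k * den α (k + 1) + num α (k + 1) * den α k) +
      2 * c * (den α k * den α (k + 1)),
      a * num α k ^ 2 + b * (num α k * den α k) + c * den α k ^ 2, ?_, ?_, ?_, ?_, ?_⟩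
    · have := (hF (k + 1)).trans hZ
      exact_mod_cast this
    · have := (hB k).trans hZ
      exact_mod_cast this
    · have := (hF k).trans hZ
      exact_mod_cast this
    · intro h0
      have h1 : ((a * num α (k + 1) ^ 2 + b * (num α (k + 1) * den α (k + 1)) +
          c * den α (k + 1) ^ 2 : ℤ) : ℝ) = 0 := by rw [h0]; simp
      have e : ((a * num α (k + 1) ^ 2 + b * (num α (k + 1) * den α (k + 1)) +
          c * den α (k + 1) ^ 2 : ℤ) : ℝ) =
          th α (k + 1) * (a * (den α (k + 1) * α) + b * den α (k + 1) +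
            a * num α (k + 1)) := by
        push_cast
        unfold th
        linear_combination (den α (k + 1) : ℝ) ^ 2 * hq
      rw [e] at h1
      rcases mul_eq_zero.1 h1 with h2 | h2
      · exact (hthp _).ne' h2
      · have hd : (0 : ℤ) < den α (k + 1) := by have := den_ge hα (k + 1); omega
        have h3 : ((a * den α (k + 1) : ℤ) : ℝ) * α =
            ((-(b * den α (k + 1) + a * num α (k + 1)) : ℤ) : ℝ) := by
          push_cast; linear_combination h2
        have h4 : (a * den α (k + 1) : ℤ) ≠ 0 := mul_ne_zero ha hd.ne'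
        have h5 : Irrational (((a * den α (k + 1) : ℤ) : ℝ) * α) := hα.intCast_mul h4
        rw [h3] at h5
        exact (h5.ne_int _) rfl
    · have hx : cquot α (k + 1) * th α (k + 1) = th α k := by
        have h1 := (th_pos hα (k + 1)).2
        have h2 := th_rec (α := α) k
        have h3 : th α (k + 1 + 1) = th α (k + 2) := rfl
        rw [h3, h2] at h1
        linear_combination h1
      set x := cquot α (k + 1) with hxdef
      have h1 : (num α k : ℝ) - x * num α (k + 1) = α * (den α k - x * den α (k + 1)) := by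
        unfold th at hx
        linear_combination -hx
      have h2 : (a : ℝ) * ((num α k : ℝ) - x * num α (k + 1)) ^ 2 +
          b * ((num α k : ℝ) - x * num α (k + 1)) * (den α k - x * den α (k + 1)) +
          c * ((den α k : ℝ) - x * den α (k + 1)) ^ 2 = 0 := by
        rw [h1]
        linear_combination ((den α k : ℝ) - x * den α (k + 1)) ^ 2 * hq
      push_cast
      linear_combination h2
  have hrange : (Set.range (fun k => cquot α (k + 1))).Finite := by
    refine (roots_finite (Z : ℤ)).subset ?_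
    rintro _ ⟨k, rfl⟩
    exact hmem k
  have hninj : ¬ Function.Injective (fun k => cquot α (k + 1)) := by
    intro hinj
    exact (Set.infinite_range_of_injective hinj) hrange
  have key : ∀ i j : ℕ, i < j → cquot α (i + 1) = cquot α (j + 1) →
      ∃ k0 m0 : ℕ, 1 ≤ m0 ∧ ∀ k, k0 ≤ k → pq α (k + m0) = pq α k := by
    intro i j hij h
    have h1 : ∀ t, cquot α (j + 1 + t) = cquot α (i + 1 + t) := by
      intro t
      induction t with
      | zero => exact h.symm
      | succ t ih =>
        have e1 : cquot α (j + 1 + (t + 1)) =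
          1 / ((⌈cquot α (j + 1 + t)⌉ : ℝ) - cquot α (j + 1 + t)) := rfl
        have e2 : cquot α (i + 1 + (t + 1)) =
          1 / ((⌈cquot α (i + 1 + t)⌉ : ℝ) - cquot α (i + 1 + t)) := rfl
        rw [e1, e2, ih]
    refine ⟨i + 1, j - i, by omega, fun k hk => ?_⟩
    have h2 := h1 (k - (i + 1))
    rw [show j + 1 + (k - (i + 1)) = k + (j - i) by omega,
      show i + 1 + (k - (i + 1)) = k by omega] at h2
    unfold pq
    rw [h2]
  unfold Function.Injective at hninj
  push Not at hninj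
  obtain ⟨i, j, h, hij⟩ := hninj
  rcases Nat.lt_or_gt_of_ne hij with h1 | h1
  · exact key i j h1 h
  · exact key j i h1 h.symm

end Pool.Agent.H18.LC
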