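import Pool.Agent.H18.LC.RunGen
import Pool.Agent.H18.LC.Fac

/-!
# Periodic minus continued fractions: trace and growth
-/

set_option autoImplicit false

namespace Pool.Agent.H18.LC

open Finset
open Pool.Agent.H1.PC

variable {α : ℝ}

/-- `y` solves the recurrence of `α` from `k0` on -/
def IsSol (α : ℝ) (k0 : ℕ) (y : ℕ → ℝ) : Prop :=
  ∀ j, k0 ≤ j → y (j + 2) = pq α (j + 1) * y (j + 1) - y j

lemma transfer (α : ℝ) (k m : ℕ) : ∃ A B C D : ℤ, A * D - B * C = 1 ∧
    ∀ y : ℕ → ℝ, IsSol α k y →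
      y (k + m) = A * y k + B * y (k + 1) ∧ y (k + m + 1) = C * y k + D * y (k + 1) := by
  induction m with
  | zero => exact ⟨1, 0, 0, 1, by norm_num, fun y _ => by simp⟩
  | succ m ih =>
    obtain ⟨A, B, C, D, hdet, h⟩ := ih
    refine ⟨C, D, pq α (k + m + 1) * C - A, pq α (k + m + 1) * D - B, by linear_combination hdet,
      fun y hy => ?_⟩
    obtain ⟨h1, h2⟩ := h y hy
    have h3 := hy (k + m) (by omega)
    refine ⟨h2, ?_⟩
    have e : k + (m + 1) + 1 = k + m + 2 := by ring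
    rw [e, h3, h1, h2]
    push_cast
    ring

lemma sol_unique {k0 : ℕ} {y : ℕ → ℝ} (hy : IsSol α k0 y) (h0 : y k0 = 0) (h1 : y (k0 + 1) = 0) :
    ∀ k, k0 ≤ k → y k = 0 := by
  have : ∀ j, y (k0 + j) = 0 ∧ y (k0 + j + 1) = 0 := by
    intro j
    induction j with
    | zero => exact ⟨h0, h1⟩
    | succ j ih =>
      refine ⟨ih.2, ?_⟩
      have := hy (k0 + j) (by omega)
      rw [show k0 + (j + 1) + 1 = k0 + j + 2 by ring, this, ih.1, ih.2]
      ring
  intro k hk
  have := (this (k - k0)).1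
  rwa [show k0 + (k - k0) = k by omega] at this

/-- The trace of a period. -/
lemma trace_exists {k0 m : ℕ} (hper : ∀ k, k0 ≤ k → pq α (k + m) = pq α k) :
    ∃ T : ℤ, ∀ y : ℕ → ℝ, IsSol α k0 y → ∀ k, k0 ≤ k → y (k + 2 * m) = T * y (k + m) - y k := by
  obtain ⟨A, B, C, D, hdet, h⟩ := transfer α k0 m
  have hdetR : (A : ℝ) * D - B * C = 1 := by exact_mod_cast hdet
  refine ⟨A + D, fun y hy => ?_⟩
  have hy' : IsSol α k0 (fun j => y (j + m)) := by
    intro j hj
    have h1 := hy (j + m) (by omega)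
    have h2 := hper (j + 1) (by omega)
    have e1 : j + 2 + m = j + m + 2 := by ring
    have e2 : j + 1 + m = j + m + 1 := by ring
    simp only [e1, e2]
    rw [h1, ← h2, e2]
  have hy'' : IsSol α k0 (fun j => y (j + 2 * m)) := by
    intro j hj
    have h1 : y (j + m + 2 + m) = pq α (j + m + 1) * y (j + m + 1 + m) - y (j + m + m) :=
      hy' (j + m) (by omega)
    have h2 := hper (j + 1) (by omega)
    have e1 : j + m + 2 + m = j + 2 + 2 * m := by ring
    have e2 : j + m + 1 + m = j + 1 + 2 * m := by ring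
    have e3 : j + m + m = j + 2 * m := by ring
    have e4 : j + 1 + m = j + m + 1 := by ring
    rw [e1, e2, e3] at h1
    show y (j + 2 + 2 * m) = pq α (j + 1) * y (j + 1 + 2 * m) - y (j + 2 * m)
    rw [h1, ← h2, e4]
  have hz : IsSol α k0 (fun j => y (j + 2 * m) - ((A + D : ℤ) * y (j + m) - y j)) := by
    intro j hj
    have h1 := hy j hj
    have h2 : y (j + 2 + m) = pq α (j + 1) * y (j + 1 + m) - y (j + m) := hy' j hj
    have h3 : y (j + 2 + 2 * m) = pq α (j + 1) * y (j + 1 + 2 * m) - y (j + 2 * m) := hy'' j hj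
    show y (j + 2 + 2 * m) - ((A + D : ℤ) * y (j + 2 + m) - y (j + 2)) =
      pq α (j + 1) * (y (j + 1 + 2 * m) - ((A + D : ℤ) * y (j + 1 + m) - y (j + 1))) -
      (y (j + 2 * m) - ((A + D : ℤ) * y (j + m) - y j))
    rw [h1, h2, h3]
    ring
  obtain ⟨a1, a2⟩ := h y hy
  obtain ⟨b1, b2⟩ : y (k0 + m + m) = A * y (k0 + m) + B * y (k0 + 1 + m) ∧
      y (k0 + m + 1 + m) = C * y (k0 + m) + D * y (k0 + 1 + m) := h _ hy'
  have e5 : k0 + m + m = k0 + 2 * m := by ring
  have e6 : k0 + 1 + m = k0 + m + 1 := by ring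
  have e7 : k0 + m + 1 + m = k0 + 1 + 2 * m := by ring
  rw [e5, e6] at b1
  rw [e6, e7] at b2
  have z0 : y (k0 + 2 * m) - ((A + D : ℤ) * y (k0 + m) - y k0) = 0 := by
    rw [b1, a2, a1]
    push_cast
    linear_combination (-(y k0)) * hdetR
  have z1 : y (k0 + 1 + 2 * m) - ((A + D : ℤ) * y (k0 + 1 + m) - y (k0 + 1)) = 0 := by
    rw [b2, e6, a1, a2]
    push_cast
    linear_combination (-(y (k0 + 1))) * hdetR
  intro k hk
  have : y (k + 2 * m) - ((A + D : ℤ) * y (k + m) - y k) = 0 := sol_unique hz z0 z1 k hk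
  linarith

lemma den_sol (k0 : ℕ) : IsSol α k0 (fun k => (den α k : ℝ)) := fun j _ => den_rec j

lemma num_sol (k0 : ℕ) : IsSol α k0 (fun k => (num α k : ℝ)) := by
  intro j _
  have : num α (j + 2) = pq α (j + 1) * num α (j + 1) - num α j := rfl
  simp only
  rw [this]; push_cast; ring

section bad

variable (hα : Irrational α) {δ : ℝ} (hδ : 0 < δ)
  (hbad : ∀ q : ℕ, 0 < q → ∀ p : ℤ, δ ≤ (q : ℝ) * |(q : ℝ) * α - p|)
include hα hδ hbad

/-- one step growth -/
lemma den_step (k : ℕ) : (den α (k + 2) : ℝ) ≤ (1 + (1 + 1 / δ) / δ) * den α (k + 1) := by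
  have h1 := pq_bound hα hδ hbad k
  have h2 := den_cast_nonneg hα k
  have h3 := den_cast_nonneg hα (k + 1)
  rw [den_rec]
  nlinarith

lemma den_steps (k h : ℕ) : (den α (k + 1 + h) : ℝ) ≤
    (1 + (1 + 1 / δ) / δ) ^ h * den α (k + 1) := by
  induction h with
  | zero => simp
  | succ h ih =>
    have h1 := den_step hα hδ hbad (k + h)
    have hB : (0 : ℝ) < 1 + (1 + 1 / δ) / δ := by positivity
    have e1 : k + 1 + (h + 1) = k + h + 2 := by ring
    have e2 : k + 1 + h = k + h + 1 := by ring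
    rw [e1]
    rw [e2] at ih
    calc (den α (k + h + 2) : ℝ) ≤ (1 + (1 + 1 / δ) / δ) * den α (k + h + 1) := h1
      _ ≤ (1 + (1 + 1 / δ) / δ) * ((1 + (1 + 1 / δ) / δ) ^ h * den α (k + 1)) :=
          mul_le_mul_of_nonneg_left ih hB.le
      _ = _ := by rw [pow_succ]; ring

/-- the trace is at least `3` -/
lemma trace_ge {k0 m : ℕ} (hm : 1 ≤ m) {T : ℤ}
    (hT : ∀ y : ℕ → ℝ, IsSol α k0 y → ∀ k, k0 ≤ k → y (k + 2 * m) = T * y (k + m) - y k) :
    3 ≤ T := by
  by_contra hc
  push Not at hc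
  have hT2 : (T : ℝ) ≤ 2 := by exact_mod_cast (by omega : T ≤ 2)
  have hrec := hT _ (den_sol (α := α) k0)
  have hd : ∀ j, (den α (k0 + (j + 1) * m) : ℝ) - den α (k0 + j * m) ≤
      den α (k0 + m) - den α k0 := by
    intro j
    induction j with
    | zero => simp
    | succ j ih =>
      have h1 := hrec (k0 + j * m) (by omega)
      have e1 : k0 + j * m + 2 * m = k0 + (j + 1 + 1) * m := by ring
      have e2 : k0 + j * m + m = k0 + (j + 1) * m := by ring
      rw [e1, e2] at h1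
      have h2 := den_cast_nonneg hα (k0 + (j + 1) * m)
      nlinarith
  obtain ⟨N, hN⟩ := exists_nat_gt (((den α (k0 + m) : ℝ) - den α k0) / δ)
  rw [div_lt_iff₀ hδ] at hN
  have h1 := hd N
  have h2 := (step_facts hα hδ hbad (k0 + N * m)).2.1
  have h3 : (den α (k0 + N * m + 1) : ℝ) ≤ den α (k0 + (N + 1) * m) :=
    den_cast_mono hα (by nlinarith)
  have h4 : ((k0 + N * m : ℕ) : ℝ) ≤ den α (k0 + N * m) := by exact_mod_cast den_ge hα _
  have h5 : (N : ℝ) ≤ ((k0 + N * m : ℕ) : ℝ) := by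
    exact_mod_cast (by nlinarith : N ≤ k0 + N * m)
  nlinarith

/-- **Uniform growth of the denominators.** -/
lemma growth {k0 m : ℕ} (hm : 1 ≤ m) {T : ℤ}
    (hT : ∀ y : ℕ → ℝ, IsSol α k0 y → ∀ k, k0 ≤ k → y (k + 2 * m) = T * y (k + m) - y k) :
    ∃ ρ c1 c2 : ℝ, 1 < ρ ∧ 0 < c1 ∧ 0 < c2 ∧ ∀ k h, k0 ≤ k → 1 ≤ k →
      c1 * ρ ^ h * den α k ≤ den α (k + h) ∧ (den α (k + h) : ℝ) ≤ c2 * ρ ^ h * den α k := by
  have hT3 : (3 : ℝ) ≤ T := by exact_mod_cast trace_ge hα hδ hbad hm hT
  set s := Real.sqrt ((T : ℝ) ^ 2 - 4) with hs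
  have hs2 : s ^ 2 = (T : ℝ) ^ 2 - 4 := Real.sq_sqrt (by nlinarith)
  have hs0 : 0 ≤ s := Real.sqrt_nonneg _
  have hs1 : 1 ≤ s := by nlinarith
  have hsT : s < T := by nlinarith
  set η := ((T : ℝ) + s) / 2 with hη
  set η' := ((T : ℝ) - s) / 2 with hη'
  have hsum : η + η' = T := by rw [hη, hη']; ring
  have hprod : η * η' = 1 := by rw [hη, hη']; nlinarith
  have hη2 : 2 ≤ η := by rw [hη]; linarith
  have hη'0 : 0 < η' := by rw [hη']; linarith
  have hη'1 : η' ≤ 1 / 2 := by nlinarith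
  -- growth along multiples of `m`
  set Bc : ℝ := 1 + (1 + 1 / δ) / δ with hBc
  have hBc1 : 1 ≤ Bc := by
    have : 0 < (1 + 1 / δ) / δ := by positivity
    linarith
  set Cm : ℝ := Bc ^ m with hCm
  have hCm1 : 1 ≤ Cm := one_le_pow₀ hBc1
  have key : ∀ k j : ℕ, k0 ≤ k → 1 ≤ k →
      (1 / (2 * η)) * η ^ j * den α k ≤ den α (k + j * m) ∧
      (den α (k + j * m) : ℝ) ≤ Cm * η ^ j * den α k := by
    intro k j hk hk1
    have hD : (0 : ℝ) ≤ den α k := den_cast_nonneg hα k
    set z : ℕ → ℝ := fun j => den α (k + j * m) with hz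
    have hz0 : z 0 = den α k := by simp [hz]
    have hzrec : ∀ j, z (j + 2) = T * z (j + 1) - z j := by
      intro j
      have h1 := hT _ (den_sol (α := α) k0) (k + j * m) (by omega)
      simp only [hz]
      rw [show k + (j + 2) * m = k + j * m + 2 * m by ring,
        show k + (j + 1) * m = k + j * m + m by ring]
      exact h1
    have hz1 : z 0 ≤ z 1 := by
      simp only [hz]
      exact den_cast_mono hα (by omega)
    have hz1' : z 1 ≤ Cm * z 0 := by
      obtain ⟨k', rfl⟩ : ∃ k', k = k' + 1 := ⟨k - 1, by omega⟩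
      have := den_steps hα hδ hbad k' m
      have e : z 1 = den α (k' + 1 + m) := by simp [hz]
      rw [e, hz0]
      exact this
    have hz00 : 0 ≤ z 0 := by rw [hz0]; exact hD
    have hw : ∀ j, z (j + 1) - η' * z j = η ^ j * (z 1 - η' * z 0) := by
      intro j
      induction j with
      | zero => simp
      | succ j ih =>
        rw [hzrec j, pow_succ, mul_right_comm, ← ih]
        linear_combination (-(z (j + 1))) * hsum + (z j) * hprod
    have hzn : ∀ j, 0 ≤ z j := fun j => den_cast_nonneg hα _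
    have hlow : ∀ j, (1 / (2 * η)) * η ^ j * z 0 ≤ z j := by
      intro j
      cases j with
      | zero =>
        have : 1 / (2 * η) ≤ 1 := by rw [div_le_one (by positivity)]; linarith
        simp only [pow_zero, mul_one]
        nlinarith
      | succ j =>
        have h1 := hw j
        have h2 : 0 ≤ η' * z j := mul_nonneg hη'0.le (hzn j)
        have h3 : (1 / 2) * z 0 ≤ z 1 - η' * z 0 := by nlinarith
        have h4 : 0 ≤ η ^ j := by positivity
        have h5 : 1 / (2 * η) * η ^ (j + 1) * z 0 = η ^ j * ((1 / 2) * z 0) := by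
          rw [pow_succ]; field_simp
        rw [h5]
        have := mul_le_mul_of_nonneg_left h3 h4
        linarith
    have hup : ∀ j, z j ≤ Cm * η ^ j * z 0 := by
      intro j
      induction j with
      | zero => simp; nlinarith
      | succ j ih =>
        have h1 := hw j
        have h4 : 0 ≤ η ^ j := by positivity
        have h5 : η' * z j ≤ (1 / 2) * (Cm * η ^ j * z 0) :=
          mul_le_mul hη'1 ih (hzn j) (by norm_num)
        have h6 : η ^ j * (z 1 - η' * z 0) ≤ η ^ j * (Cm * z 0) := by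
          apply mul_le_mul_of_nonneg_left _ h4
          nlinarith [mul_nonneg hη'0.le hz00]
        have h7 : 0 ≤ Cm * η ^ j * z 0 := by positivity
        rw [pow_succ]
        nlinarith
    refine ⟨?_, ?_⟩
    · have := hlow j; rw [hz0] at this; exact this
    · have := hup j; rw [hz0] at this; exact this
  have hη0 : 0 < η := by linarith
  set ρ : ℝ := η ^ ((1 : ℝ) / m) with hρ
  have hm0 : (m : ℝ) ≠ 0 := by exact_mod_cast (by omega : m ≠ 0)
  have hρm : ρ ^ m = η := by
    rw [hρ, ← Real.rpow_natCast, ← Real.rpow_mul hη0.le, one_div, inv_mul_cancel₀ hm0,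
      Real.rpow_one]
  have hρ1 : 1 < ρ := by
    rw [hρ]
    apply Real.one_lt_rpow (by linarith)
    positivity
  refine ⟨ρ, 1 / (2 * η) / η, Cm * η, hρ1, by positivity, by positivity, ?_⟩
  intro k h hk hk1
  have hD : (0 : ℝ) ≤ den α k := den_cast_nonneg hα k
  set j := h / m with hj
  have hdiv := Nat.div_add_mod h m
  have hmod := Nat.mod_lt h (by omega : 0 < m)
  have e1 : j * m ≤ h := Nat.div_mul_le_self h m
  have e2 : h ≤ (j + 1) * m := by
    have : m * j + h % m = h := hdiv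
    nlinarith
  obtain ⟨a1, -⟩ := key k j hk hk1
  obtain ⟨-, a2⟩ := key k (j + 1) hk hk1
  have p1 : η ^ j ≤ ρ ^ h := by
    rw [← hρm, ← pow_mul, mul_comm m j]
    exact pow_le_pow_right₀ hρ1.le e1
  have p2 : ρ ^ h ≤ η ^ (j + 1) := by
    rw [← hρm, ← pow_mul, mul_comm m (j + 1)]
    exact pow_le_pow_right₀ hρ1.le e2
  have m1 : (den α (k + j * m) : ℝ) ≤ den α (k + h) := den_cast_mono hα (by omega)
  have m2 : (den α (k + h) : ℝ) ≤ den α (k + (j + 1) * m) := den_cast_mono hα (by omega)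
  constructor
  · refine le_trans ?_ (le_trans a1 m1)
    apply mul_le_mul_of_nonneg_right _ hD
    have : ρ ^ h ≤ η ^ j * η := by rw [← pow_succ]; exact p2
    have h0 : 0 ≤ 1 / (2 * η) / η := by positivity
    calc 1 / (2 * η) / η * ρ ^ h ≤ 1 / (2 * η) / η * (η ^ j * η) :=
          mul_le_mul_of_nonneg_left this h0
      _ = 1 / (2 * η) * η ^ j := by field_simp
  · refine le_trans (le_trans m2 a2) ?_
    apply mul_le_mul_of_nonneg_right _ hD
    rw [pow_succ]
    have h0 : 0 ≤ Cm * η := by positivity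
    calc Cm * (η ^ j * η) = Cm * η * η ^ j := by ring
      _ ≤ Cm * η * ρ ^ h := mul_le_mul_of_nonneg_left p1 h0

end bad

end Pool.Agent.H18.LC
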