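import Pool.Agent.H18.LC.Periodic

/-!
# Runs of exponent above `3/2` when the minus continued fraction of `α` is periodic
-/

set_option autoImplicit false

namespace Pool.Agent.H18.LC

open Finset
open Pool.Agent.H1.PC

variable {α : ℝ}

/-- The final arithmetic in `core`. -/
lemma core_arith {x y z u E θ A CY B P H : ℝ} (hx : 0 ≤ x) (hy : 0 ≤ y) (hz : 0 ≤ z)
    (hu : 1 ≤ u) (hE : 0 ≤ E) (hθ : 0 ≤ θ) (hC : 0 ≤ CY) (hB : 0 < B) (hP : 0 < P)
    (hH : 0 < H)
    (h1 : x * u ≤ Real.sqrt u * (4 * E)) (h2 : y * u ≤ Real.sqrt u * (4 * θ))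
    (h3 : z * u ≤ Real.sqrt u * (2 * (CY / H))) (h4 : E * θ ≤ A * P) (h5 : B * P ≤ u ^ 2) :
    (x * y * z) ^ 4 ≤ ((32 * A * CY) ^ 4 / B ^ 3) * P / H ^ 4 := by
  have hu0 : 0 < u := by linarith
  have hs : 0 ≤ Real.sqrt u := Real.sqrt_nonneg _
  have hs2 : Real.sqrt u ^ 2 = u := Real.sq_sqrt hu0.le
  have e1 : (x * u) * (y * u) * (z * u) ≤
      (Real.sqrt u * (4 * E)) * (Real.sqrt u * (4 * θ)) * (Real.sqrt u * (2 * (CY / H))) := by
    apply mul_le_mul (mul_le_mul h1 h2 (by positivity) (by positivity)) h3 (by positivity)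
      (by positivity)
  have e2 : (x * y * z) * u ^ 3 ≤ Real.sqrt u ^ 3 * (32 * A * CY * P / H) := by
    calc (x * y * z) * u ^ 3 = (x * u) * (y * u) * (z * u) := by ring
      _ ≤ _ := e1
      _ = Real.sqrt u ^ 3 * (32 * CY / H) * (E * θ) := by ring
      _ ≤ Real.sqrt u ^ 3 * (32 * CY / H) * (A * P) :=
          mul_le_mul_of_nonneg_left h4 (by positivity)
      _ = _ := by ring
  have e3 : ((x * y * z) * u ^ 3) ^ 4 ≤ (Real.sqrt u ^ 3 * (32 * A * CY * P / H)) ^ 4 :=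
    pow_le_pow_left₀ (by positivity) e2 4
  have e4 : (Real.sqrt u ^ 3 * (32 * A * CY * P / H)) ^ 4 =
      u ^ 6 * ((32 * A * CY) ^ 4 * P ^ 4 / H ^ 4) := by
    have : (Real.sqrt u ^ 3) ^ 4 = u ^ 6 := by
      rw [← pow_mul, show 3 * 4 = 2 * 6 by norm_num, pow_mul, hs2]
    rw [mul_pow, this]
    field_simp
  have e5 : (x * y * z) ^ 4 * u ^ 6 ≤ (32 * A * CY) ^ 4 * P ^ 4 / H ^ 4 := by
    have h6 : u ^ 6 * ((x * y * z) ^ 4 * u ^ 6) ≤ u ^ 6 * ((32 * A * CY) ^ 4 * P ^ 4 / H ^ 4) := by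
      rw [← e4]
      calc u ^ 6 * ((x * y * z) ^ 4 * u ^ 6) = ((x * y * z) * u ^ 3) ^ 4 := by ring
        _ ≤ _ := e3
    exact le_of_mul_le_mul_left h6 (by positivity)
  have e6 : (B * P) ^ 3 ≤ u ^ 6 := by
    calc (B * P) ^ 3 ≤ (u ^ 2) ^ 3 := pow_le_pow_left₀ (by positivity) h5 3
      _ = u ^ 6 := by ring
  have e7 : (x * y * z) ^ 4 * (B * P) ^ 3 ≤ (32 * A * CY) ^ 4 * P ^ 4 / H ^ 4 :=
    (mul_le_mul_of_nonneg_left e6 (by positivity)).trans e5
  have e8 : (32 * A * CY) ^ 4 * P ^ 4 / H ^ 4 =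
      ((32 * A * CY) ^ 4 / B ^ 3 * P / H ^ 4) * (B * P) ^ 3 := by
    field_simp
  rw [e8] at e7
  exact le_of_mul_le_mul_right e7 (by positivity)

section bad

variable (hα : Irrational α) {δ : ℝ} (hδ : 0 < δ)
  (hbad : ∀ q : ℕ, 0 < q → ∀ p : ℤ, δ ≤ (q : ℝ) * |(q : ℝ) * α - p|)
include hα hδ hbad

/-- The difference `V_{k+l} - τ V_k` is tiny in the middle of a run. -/
lemma diff_small {β : ℝ} {R : ℕ → ℤ} {M : ℝ} (hM : ∀ k, |(den α k : ℝ) * β - R k| ≤ M)
    {k1 : ℕ} {ρ c1 c2 : ℝ} (hρ : 1 < ρ) (hc1 : 0 < c1) (hc2 : 0 < c2)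
    (hg : ∀ k h, k1 ≤ k → c1 * ρ ^ h * den α k ≤ den α (k + h) ∧
      (den α (k + h) : ℝ) ≤ c2 * ρ ^ h * den α k)
    {τ : ℤ} (hτ : τ = 1 ∨ τ = -1) {n l s h : ℕ} (hn : k1 ≤ n) (hs : 2 * h ≤ s) (hh : 1 ≤ h)
    (hrun : Run α R τ n l s) (e : ℕ) (he : e ≤ 1) :
    |((den α (n + h + 1 + e + l) : ℝ) * β - R (n + h + 1 + e + l)) -
      τ * ((den α (n + h + 1 + e) : ℝ) * β - R (n + h + 1 + e))| ≤
      (4 * M / (δ * c1)) * (c2 * ρ ^ 2 + ρ + 1) / ρ ^ h := by
  have hM0 : 0 ≤ M := (abs_nonneg _).trans (hM 0)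
  have hρ0 : 0 < ρ := by linarith
  let V : ℕ → ℝ := fun k => (den α k : ℝ) * β - R k
  let Y : ℕ → ℝ := fun k => V (k + l) - τ * V k
  have hY : ∀ k, |Y k| ≤ 2 * M := fun k => diff_bound hM hτ l k
  have hYrec : ∀ j < s, Y (n + j + 2) = pq α (n + j + 1) * Y (n + j + 1) - Y (n + j) :=
    fun j hj => diff_rec hrun j hj
  have hb := window_bound hα Y (2 * M) hY n s hYrec (h + e) (by omega)
  have e1 : n + (h + e) + 1 = n + h + 1 + e := by ring
  rw [e1] at hb
  set k := n + h + 1 with hk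
  have hQ : ∀ i, (0 : ℝ) ≤ den α i := den_cast_nonneg hα
  have hQpos : ∀ i, 1 ≤ i → (0 : ℝ) < den α i := by
    intro i hi
    have := den_ge hα i
    have h2 : (0 : ℤ) < den α i := by omega
    exact_mod_cast h2
  have hth : ∀ i, 0 ≤ th α i := th_nonneg hα
  have hQth : ∀ i, (den α i : ℝ) * th α i ≤ 1 / δ := fun i => (step_facts hα hδ hbad i).2.2
  have hr : 0 < ρ ^ h := by positivity
  -- first product
  have f1 : (den α (k + e) : ℝ) * th α (n + s) ≤ (c2 * ρ ^ 2 + ρ) / (δ * c1 * ρ ^ h) := by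
    have g1 := (hg k (s - h - 1) (by omega)).1
    have e2 : k + (s - h - 1) = n + s := by omega
    rw [e2] at g1
    have g2 : ρ ^ h ≤ ρ * ρ ^ (s - h - 1) := by
      rw [← pow_succ']
      exact pow_le_pow_right₀ hρ.le (by omega)
    -- den k * ρ^h * c1 ≤ ρ * den (n+s)
    have g3 : c1 * ρ ^ h * den α k ≤ ρ * den α (n + s) := by
      calc c1 * ρ ^ h * den α k ≤ c1 * (ρ * ρ ^ (s - h - 1)) * den α k := by
            apply mul_le_mul_of_nonneg_right _ (hQ _)
            exact mul_le_mul_of_nonneg_left g2 hc1.le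
        _ = ρ * (c1 * ρ ^ (s - h - 1) * den α k) := by ring
        _ ≤ ρ * den α (n + s) := mul_le_mul_of_nonneg_left g1 hρ0.le
    have g4 : (den α (k + e) : ℝ) ≤ (c2 * ρ + 1) * den α k := by
      rcases (by omega : e = 0 ∨ e = 1) with rfl | rfl
      · simp only [Nat.add_zero]
        have : 0 ≤ c2 * ρ * den α k := mul_nonneg (by positivity) (hQ _)
        linarith
      · have := (hg k 1 (by omega)).2
        rw [pow_one] at this
        have h0 := hQ k
        linarith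
    rw [le_div_iff₀ (by positivity)]
    calc (den α (k + e) : ℝ) * th α (n + s) * (δ * c1 * ρ ^ h)
        ≤ ((c2 * ρ + 1) * den α k) * th α (n + s) * (δ * c1 * ρ ^ h) := by
          apply mul_le_mul_of_nonneg_right _ (by positivity)
          exact mul_le_mul_of_nonneg_right g4 (hth _)
      _ = (c2 * ρ + 1) * δ * th α (n + s) * (c1 * ρ ^ h * den α k) := by ring
      _ ≤ (c2 * ρ + 1) * δ * th α (n + s) * (ρ * den α (n + s)) := by
          apply mul_le_mul_of_nonneg_left g3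
          have := hth (n + s)
          positivity
      _ = (c2 * ρ + 1) * ρ * δ * (den α (n + s) * th α (n + s)) := by ring
      _ ≤ (c2 * ρ + 1) * ρ * δ * (1 / δ) := by
          apply mul_le_mul_of_nonneg_left (hQth _) (by positivity)
      _ = c2 * ρ ^ 2 + ρ := by field_simp
  have f2 : th α (k + e) * den α (n + 1) ≤ 1 / (δ * c1 * ρ ^ h) := by
    have g1 := (hg (n + 1) h (by omega)).1
    have e2 : n + 1 + h = k := by omega
    rw [e2] at g1
    have g2 : th α (k + e) ≤ th α k := th_anti hα (by omega)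
    rw [le_div_iff₀ (by positivity)]
    calc th α (k + e) * den α (n + 1) * (δ * c1 * ρ ^ h)
        = th α (k + e) * δ * (c1 * ρ ^ h * den α (n + 1)) := by ring
      _ ≤ th α k * δ * den α k := by
          apply mul_le_mul _ g1 (mul_nonneg (by positivity) (hQ _))
            (mul_nonneg (hth _) hδ.le)
          exact mul_le_mul_of_nonneg_right g2 hδ.le
      _ = δ * (den α k * th α k) := by ring
      _ ≤ δ * (1 / δ) := mul_le_mul_of_nonneg_left (hQth _) hδ.le
      _ = 1 := by field_simp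
  calc |((den α (k + e + l) : ℝ) * β - R (k + e + l)) -
      τ * ((den α (k + e) : ℝ) * β - R (k + e))| = |Y (k + e)| := rfl
    _ ≤ 2 * (2 * M) * (den α (k + e) * th α (n + s) + th α (k + e) * den α (n + 1)) := hb
    _ ≤ 2 * (2 * M) * ((c2 * ρ ^ 2 + ρ) / (δ * c1 * ρ ^ h) + 1 / (δ * c1 * ρ ^ h)) := by
        apply mul_le_mul_of_nonneg_left (add_le_add f1 f2) (by positivity)
    _ = _ := by field_simp; ring

set_option maxHeartbeats 4000000 in
/-- The main construction for one run. -/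
lemma core {β : ℝ} {R : ℕ → ℤ} {M : ℝ} (hM : ∀ k, |(den α k : ℝ) * β - R k| ≤ M)
    {k0 k1 m : ℕ} {T : ℤ}
    (hT : ∀ y : ℕ → ℝ, IsSol α k0 y → ∀ k, k0 ≤ k → y (k + 2 * m) = T * y (k + m) - y k)
    (hk01 : k0 ≤ k1) {ρ c1 c2 : ℝ} (hρ : 1 < ρ) (hc1 : 0 < c1) (hc2 : 0 < c2)
    (hg : ∀ k h, k1 ≤ k → c1 * ρ ^ h * den α k ≤ den α (k + h) ∧
      (den α (k + h) : ℝ) ≤ c2 * ρ ^ h * den α k)
    {τ : ℤ} (hτ : τ = 1 ∨ τ = -1) {n l s h j : ℕ} (hn : k1 ≤ n) (hs : 2 * h ≤ s) (hh : 1 ≤ h)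
    (hl : l = j * m) (hl1 : 1 ≤ l) (hrun : Run α R τ n l s)
    (hx : (1 - δ) ^ l < δ / 2) (hy : 2 / δ ≤ (1 + δ) ^ (l - 1))
    (hθ4 : 4 * th α (n + h + 1) < 1) :
    ∃ q p r : ℤ, q ≠ 0 ∧ |(q : ℝ) * α - p| ≤ 4 * th α (n + h + 1) ∧
      (|(q : ℝ)| * |(q : ℝ) * α - p| * |(q : ℝ) * β - r|) ^ 4 ≤
        ((32 * (c2 * ρ / δ) * ((4 * M / (δ * c1)) * (c2 * ρ ^ 2 + ρ + 1))) ^ 4 /
          ((δ / 2 * c1 / ((|T| + 3) * c2)) ^ 2 / ρ ^ (2 * m)) ^ 3) * ρ ^ l / (ρ ^ h) ^ 4 := by
  have hM0 : 0 ≤ M := (abs_nonneg _).trans (hM 0)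
  have hρ0 : 0 < ρ := by linarith
  have hd1 := delta_le_one hα hδ hbad
  have hτabs : |(τ : ℝ)| = 1 := by
    rcases hτ with h | h <;> rw [h] <;> norm_num
  have hQ : ∀ i, (0 : ℝ) ≤ den α i := den_cast_nonneg hα
  have hQpos : ∀ i, 1 ≤ i → (0 : ℝ) < den α i := by
    intro i hi
    have := den_ge hα i
    have h2 : (0 : ℤ) < den α i := by omega
    exact_mod_cast h2
  have hth : ∀ i, 0 < th α i := fun i => (th_pos hα i).1
  have hQth : ∀ i, (den α i : ℝ) * th α i ≤ 1 / δ := fun i => (step_facts hα hδ hbad i).2.2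
  set CY : ℝ := (4 * M / (δ * c1)) * (c2 * ρ ^ 2 + ρ + 1) with hCY
  have hCY0 : 0 ≤ CY := by positivity
  set k := n + h + 1 with hk
  -- factorisation
  obtain ⟨U, pp, qq, hpp, hqq, hU⟩ := fac T τ hτ j
  set i := j / 2 with hi
  have hij : 2 * i ≤ j := by omega
  -- the factorisation for a solution at position `x ≥ k0`
  have hfac : ∀ y : ℕ → ℝ, IsSol α k0 y → ∀ x, k0 ≤ x →
      y (x + l) - τ * y x = U * (pp * y (x + (i + 1) * m) + qq * y (x + i * m)) := by
    intro y hy x hx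
    have := hU (fun t => y (x + t * m)) (fun t => by
      have h1 := hT y hy (x + t * m) (by omega)
      rw [show x + (t + 2) * m = x + t * m + 2 * m by ring,
        show x + (t + 1) * m = x + t * m + m by ring]
      exact h1)
    simp only [Nat.zero_mul, Nat.add_zero] at this
    rw [hl]
    exact this
  -- integers
  let qd : ℕ → ℤ := fun x => pp * den α (x + (i + 1) * m) + qq * den α (x + i * m)
  let pd : ℕ → ℤ := fun x => pp * num α (x + (i + 1) * m) + qq * num α (x + i * m)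
  have hqd : ∀ x, k0 ≤ x → (den α (x + l) : ℝ) - τ * den α x = U * (qd x : ℝ) := by
    intro x hx
    have := hfac _ (den_sol (α := α) k0) x hx
    simp only [qd]
    push_cast
    exact this
  have hpd : ∀ x, k0 ≤ x → (num α (x + l) : ℝ) - τ * num α x = U * (pd x : ℝ) := by
    intro x hx
    have := hfac _ (num_sol (α := α) k0) x hx
    simp only [pd]
    push_cast
    exact this
  -- positivity and size of `s x = den (x+l) - τ den x`
  have hslow : ∀ x, (den α (x + l) : ℝ) - den α x ≤ den α (x + l) - τ * den α x := by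
    intro x
    have := hQ x
    rcases hτ with h | h <;> rw [h] <;> push_cast <;> linarith
  have hsup : ∀ x, (den α (x + l) : ℝ) - τ * den α x ≤ 2 * den α (x + l) := by
    intro x
    have h1 := hQ x
    have h2 : (den α x : ℝ) ≤ den α (x + l) := den_cast_mono hα (by omega)
    rcases hτ with h | h <;> rw [h] <;> push_cast <;> linarith
  have hinc : (1 + δ) * (den α k : ℝ) ≤ den α (k + l) := by
    have h1 := (step_facts hα hδ hbad k).2.1
    have h2 : (den α (k + 1) : ℝ) ≤ den α (k + l) := den_cast_mono hα (by omega)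
    linarith
  have hDk : 0 < (den α k : ℝ) := hQpos k (by omega)
  have hs0 : δ / 2 * den α (k + l) ≤ den α (k + l) - τ * den α k := by
    have h1 := hslow k
    have h2 : δ * (den α (k + l) : ℝ) ≤ (1 + δ) * (den α (k + l) - den α k) := by linarith
    have h3 : 0 ≤ (den α (k + l) : ℝ) - den α k := by
      have := hQ k
      nlinarith
    have h4 : (1 + δ) * ((den α (k + l) : ℝ) - den α k) ≤ 2 * (den α (k + l) - den α k) :=
      mul_le_mul_of_nonneg_right (by linarith) h3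
    linarith
  have hs0pos : 0 < (den α (k + l) : ℝ) - τ * den α k := by
    have : 0 < (den α (k + l) : ℝ) := hQpos _ (by omega)
    have h2 : 0 < δ / 2 * (den α (k + l) : ℝ) := by positivity
    linarith
  have hU0 : U ≠ 0 := by
    intro h0
    have := hqd k (by omega)
    rw [h0] at this
    simp at this
    linarith
  set u : ℤ := |U| with hu
  have hu1 : 1 ≤ u := Int.one_le_abs hU0
  have hu1R : (1 : ℝ) ≤ u := by exact_mod_cast hu1
  have huabs : |(U : ℝ)| = u := by rw [hu]; push_cast; rfl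
  -- Thue
  set z0 : ℤ := R (k + l) - τ * R k with hz0
  set z1 : ℤ := R (k + 1 + l) - τ * R (k + 1) with hz1
  obtain ⟨b0, b1, hb, hdvd, hb0, hb1⟩ := thue u z0 z1 (by omega)
  have hdvd' : U ∣ b0 * z0 + b1 * z1 := by
    rw [hu] at hdvd
    exact (abs_dvd _ _).1 hdvd
  obtain ⟨r, hr⟩ := hdvd'
  set q : ℤ := b0 * qd k + b1 * qd (k + 1) with hq
  set p : ℤ := b0 * pd k + b1 * pd (k + 1) with hp
  -- sizes of `b`
  have hsq : ∀ b : ℤ, b ^ 2 ≤ u → |(b : ℝ)| ≤ Real.sqrt u := by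
    intro b hb
    apply Real.le_sqrt_of_sq_le
    rw [sq_abs]
    exact_mod_cast hb
  have hB0 := hsq b0 hb0
  have hB1 := hsq b1 hb1
  have hsu : 0 ≤ Real.sqrt (u : ℝ) := Real.sqrt_nonneg _
  have hsu2 : Real.sqrt (u : ℝ) ^ 2 = u := Real.sq_sqrt (by linarith)
  set s0 : ℝ := den α (k + l) - τ * den α k with hs0def
  set s1 : ℝ := den α (k + 1 + l) - τ * den α (k + 1) with hs1def
  set t0 : ℝ := th α (k + l) - τ * th α k with ht0def
  set t1 : ℝ := th α (k + 1 + l) - τ * th α (k + 1) with ht1def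
  have hkl1 : k + 1 + l = k + l + 1 := by ring
  have hUq : (U : ℝ) * q = b0 * s0 + b1 * s1 := by
    rw [hs0def, hs1def, hqd k (by omega), hqd (k + 1) (by omega), hq]
    push_cast; ring
  have hUp : (U : ℝ) * (q * α - p) = -(b0 * t0 + b1 * t1) := by
    have e1 := hqd k (by omega)
    have e2 := hqd (k + 1) (by omega)
    have e3 := hpd k (by omega)
    have e4 := hpd (k + 1) (by omega)
    rw [ht0def, ht1def, hq, hp]
    unfold th
    push_cast
    linear_combination (-(b0 : ℝ)) * α * e1 - (b1 : ℝ) * α * e2 + (b0 : ℝ) * e3 + (b1 : ℝ) * e4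
  have hUr : (U : ℝ) * (q * β - r) =
      b0 * (((den α (k + l) : ℝ) * β - R (k + l)) - τ * ((den α k : ℝ) * β - R k)) +
      b1 * (((den α (k + 1 + l) : ℝ) * β - R (k + 1 + l)) -
        τ * ((den α (k + 1) : ℝ) * β - R (k + 1))) := by
    have e1 : ((b0 * z0 + b1 * z1 : ℤ) : ℝ) = ((U * r : ℤ) : ℝ) := by rw [hr]
    rw [hz0, hz1] at e1
    push_cast at e1
    rw [hs0def, hs1def] at hUq
    linear_combination β * hUq + e1
  -- sizes of `s`, `t`
  have hE : (den α (k + l) : ℝ) ≤ den α (k + 1 + l) := den_cast_mono hα (by omega)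
  have hs0a : |s0| ≤ 2 * den α (k + 1 + l) := by
    rw [abs_of_pos hs0pos]
    have := hsup k
    linarith
  have hs1pos : 0 < s1 := by
    have h1 := hslow (k + 1)
    have h2 : (den α (k + 1) : ℝ) < den α (k + 1 + l) := by
      exact_mod_cast den_strict hα (by omega)
    linarith
  have hs1a : |s1| ≤ 2 * den α (k + 1 + l) := by
    rw [abs_of_pos hs1pos]
    exact hsup (k + 1)
  have hxl : 0 ≤ (1 - δ) ^ l := pow_nonneg (by linarith) _
  have hφ0 : th α (k + l) ≤ (1 - δ) ^ l * th α k := th_decay hα hδ hbad k l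
  have hφ1 : th α (k + 1 + l) ≤ (1 - δ) ^ l * th α (k + 1) := th_decay hα hδ hbad (k + 1) l
  have hθ1 : th α (k + 1) ≤ (1 - δ) * th α k := (step_facts hα hδ hbad k).1
  have hθ0 := hth k
  have ht0a : |t0| ≤ 2 * th α k := by
    rw [ht0def]
    refine (abs_sub _ _).trans ?_
    rw [abs_mul, hτabs, one_mul, abs_of_pos (hth _), abs_of_pos (hth _)]
    have : th α (k + l) ≤ th α k := th_anti hα (by omega)
    linarith
  have ht1a : |t1| ≤ 2 * th α k := by
    rw [ht1def]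
    refine (abs_sub _ _).trans ?_
    rw [abs_mul, hτabs, one_mul, abs_of_pos (hth _), abs_of_pos (hth _)]
    have h1 : th α (k + 1 + l) ≤ th α k := th_anti hα (by omega)
    have h2 : th α (k + 1) ≤ th α k := th_anti hα (by omega)
    linarith
  have hupos : (0 : ℝ) < u := by linarith
  -- the three bounds
  have hq_bd : |(q : ℝ)| * u ≤ Real.sqrt u * (4 * den α (k + 1 + l)) := by
    rw [← huabs, mul_comm, ← abs_mul, hUq]
    refine (abs_add_le _ _).trans ?_
    rw [abs_mul, abs_mul]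
    have h1 := mul_le_mul hB0 hs0a (abs_nonneg _) hsu
    have h2 := mul_le_mul hB1 hs1a (abs_nonneg _) hsu
    rw [huabs]
    linarith
  have hp_bd : |(q : ℝ) * α - p| * u ≤ Real.sqrt u * (4 * th α k) := by
    rw [← huabs, mul_comm, ← abs_mul, hUp, abs_neg]
    refine (abs_add_le _ _).trans ?_
    rw [abs_mul, abs_mul]
    have h1 := mul_le_mul hB0 ht0a (abs_nonneg _) hsu
    have h2 := mul_le_mul hB1 ht1a (abs_nonneg _) hsu
    rw [huabs]
    linarith
  have hr_bd : |(q : ℝ) * β - r| * u ≤ Real.sqrt u * (2 * (CY / ρ ^ h)) := by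
    rw [← huabs, mul_comm, ← abs_mul, hUr]
    refine (abs_add_le _ _).trans ?_
    rw [abs_mul, abs_mul]
    have y0 := diff_small hα hδ hbad hM hρ hc1 hc2 hg hτ hn hs hh hrun 0 (by norm_num)
    have y1 := diff_small hα hδ hbad hM hρ hc1 hc2 hg hτ hn hs hh hrun 1 (by norm_num)
    rw [← hCY] at y0 y1
    simp only [Nat.add_zero] at y0
    have h1 := mul_le_mul hB0 y0 (abs_nonneg _) hsu
    have h2 := mul_le_mul hB1 y1 (abs_nonneg _) hsu
    rw [huabs]
    linarith
  -- lower bound of `u`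
  have hTR : (0 : ℝ) ≤ ((|T| : ℤ) : ℝ) := by exact_mod_cast abs_nonneg T
  set cU : ℝ := δ / 2 * c1 / ((|T| + 3) * c2) with hcU
  have hcU0 : 0 < cU := by positivity
  have hqdk : |(qd k : ℝ)| ≤ (|T| + 3) * (c2 * ρ ^ ((i + 1) * m) * den α k) := by
    have e1 : (qd k : ℝ) = pp * den α (k + (i + 1) * m) + qq * den α (k + i * m) := by
      simp only [qd]; push_cast; ring
    rw [e1]
    refine (abs_add_le _ _).trans ?_
    rw [abs_mul, abs_mul, abs_of_nonneg (hQ _), abs_of_nonneg (hQ (k + i * m))]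
    have g1 := (hg k ((i + 1) * m) (by omega)).2
    have g2 : (den α (k + i * m) : ℝ) ≤ den α (k + (i + 1) * m) :=
      den_cast_mono hα (by nlinarith)
    have p1 : |(pp : ℝ)| ≤ 2 := by exact_mod_cast hpp
    have p2 : |(qq : ℝ)| ≤ |T| + 1 := by exact_mod_cast hqq
    have m1 := mul_le_mul p1 g1 (hQ _) (by norm_num)
    have m2 := mul_le_mul p2 (g2.trans g1) (hQ _) (by positivity)
    push_cast at m2 ⊢
    linarith
  have hu_low1 : cU * ρ ^ l ≤ u * ρ ^ ((i + 1) * m) := by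
    have h1 : δ / 2 * (c1 * ρ ^ l * den α k) ≤ u * ((|T| + 3) * (c2 * ρ ^ ((i + 1) * m) * den α k)) := by
      calc δ / 2 * (c1 * ρ ^ l * den α k) ≤ δ / 2 * den α (k + l) :=
            mul_le_mul_of_nonneg_left (hg k l (by omega)).1 (by positivity)
        _ ≤ s0 := hs0
        _ = |s0| := (abs_of_pos hs0pos).symm
        _ = u * |(qd k : ℝ)| := by rw [hs0def, hqd k (by omega), abs_mul, huabs]
        _ ≤ _ := mul_le_mul_of_nonneg_left hqdk hupos.le
    have h2 : 0 < ((|T| : ℤ) : ℝ) + 3 := by positivity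
    rw [hcU, div_mul_eq_mul_div, div_le_iff₀ (by positivity)]
    have h3 : (δ / 2 * c1 * ρ ^ l) * den α k ≤
        (u * ρ ^ ((i + 1) * m) * ((|T| + 3) * c2)) * den α k := by
      calc (δ / 2 * c1 * ρ ^ l) * den α k = δ / 2 * (c1 * ρ ^ l * den α k) := by ring
        _ ≤ _ := h1
        _ = _ := by ring
    exact le_of_mul_le_mul_right h3 hDk
  set B : ℝ := cU ^ 2 / ρ ^ (2 * m) with hB
  have hB0' : 0 < B := by positivity
  have hu_low : B * ρ ^ l ≤ (u : ℝ) ^ 2 := by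
    have h1 : (cU * ρ ^ l) ^ 2 ≤ (u * ρ ^ ((i + 1) * m)) ^ 2 :=
      pow_le_pow_left₀ (by positivity) hu_low1 2
    have h2 : (ρ ^ ((i + 1) * m)) ^ 2 ≤ ρ ^ l * ρ ^ (2 * m) := by
      rw [← pow_mul, ← pow_add]
      apply pow_le_pow_right₀ hρ.le
      rw [hl]
      nlinarith
    rw [hB, div_mul_eq_mul_div, div_le_iff₀ (by positivity)]
    have h3 : (u * ρ ^ ((i + 1) * m)) ^ 2 ≤ (u : ℝ) ^ 2 * (ρ ^ l * ρ ^ (2 * m)) := by
      rw [mul_pow]; exact mul_le_mul_of_nonneg_left h2 (by positivity)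
    have h4 : (cU ^ 2 * ρ ^ l) * ρ ^ l ≤ ((u : ℝ) ^ 2 * ρ ^ (2 * m)) * ρ ^ l := by
      calc (cU ^ 2 * ρ ^ l) * ρ ^ l = (cU * ρ ^ l) ^ 2 := by ring
        _ ≤ _ := h1.trans h3
        _ = _ := by ring
    exact le_of_mul_le_mul_right h4 (by positivity)
  -- `q` is not zero
  have hst0 : |t1| < |t0| := by
    have g0 : (1 - (1 - δ) ^ l) * th α k ≤ |t0| := by
      have h1 : |τ * th α k| - |th α (k + l)| ≤ |t0| := by
        rw [ht0def, abs_sub_comm]
        exact abs_sub_abs_le_abs_sub _ _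
      rw [abs_mul, hτabs, one_mul, abs_of_pos (hth _), abs_of_pos (hth _)] at h1
      linarith
    have g1 : |t1| ≤ (1 + (1 - δ) ^ l) * ((1 - δ) * th α k) := by
      have h1 : |t1| ≤ |th α (k + 1 + l)| + |τ * th α (k + 1)| := by
        rw [ht1def]; exact abs_sub _ _
      rw [abs_mul, hτabs, one_mul, abs_of_pos (hth _), abs_of_pos (hth _)] at h1
      have h2 : (1 + (1 - δ) ^ l) * th α (k + 1) ≤ (1 + (1 - δ) ^ l) * ((1 - δ) * th α k) :=
        mul_le_mul_of_nonneg_left hθ1 (by linarith)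
      linarith
    have g2 : (1 + (1 - δ) ^ l) * (1 - δ) < 1 - (1 - δ) ^ l := by nlinarith
    have g3 := mul_lt_mul_of_pos_right g2 hθ0
    linarith
  have hss : s0 ≤ s1 := by
    have h1 := hslow (k + 1)
    have h2 : s0 ≤ den α (k + l) + den α k := by
      rw [hs0def]
      have := hQ k
      rcases hτ with h | h <;> rw [h] <;> push_cast <;> linarith
    have h3 := (step_facts hα hδ hbad (k + l)).2.1
    rw [← hkl1] at h3
    have h4 := den_growth hα hδ hbad (k + 1) (l - 1)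
    rw [show k + 1 + (l - 1) = k + l by omega] at h4
    have h5 : (den α k : ℝ) ≤ den α (k + 1) := den_cast_mono hα (by omega)
    have h6 := mul_le_mul_of_nonneg_right hy (hQ (k + 1))
    have h7 : 2 * (den α (k + 1) : ℝ) ≤ δ * den α (k + l) := by
      have h8 : 2 / δ * (den α (k + 1) : ℝ) ≤ den α (k + l) := h6.trans h4
      rw [div_mul_eq_mul_div, div_le_iff₀ hδ] at h8
      linarith
    linarith
  have hnz : ¬ (b0 * s0 + b1 * s1 = 0 ∧ b0 * t0 + b1 * t1 = 0) := by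
    rintro ⟨e1, e2⟩
    have a1 : |(b0 : ℝ)| * s0 = |(b1 : ℝ)| * s1 := by
      rw [← abs_of_pos hs0pos, ← abs_of_pos hs1pos, ← abs_mul, ← abs_mul, ← abs_neg]
      congr 1; linarith
    have a2 : |(b0 : ℝ)| * |t0| = |(b1 : ℝ)| * |t1| := by
      rw [← abs_mul, ← abs_mul, ← abs_neg]
      congr 1; linarith
    have hb1' : b1 ≠ 0 := by
      intro h0
      rw [h0] at a1
      simp only [Int.cast_zero, abs_zero, zero_mul, mul_eq_zero, abs_eq_zero, Int.cast_eq_zero]
        at a1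
      rcases a1 with h1 | h1
      · rcases hb with h2 | h2
        · exact h2 h1
        · exact h2 h0
      · exact hs0pos.ne' h1
    have hb1p : 0 < |(b1 : ℝ)| := abs_pos.2 (by exact_mod_cast hb1')
    have c1' : |(b1 : ℝ)| ≤ |(b0 : ℝ)| := by
      have : |(b1 : ℝ)| * s0 ≤ |(b0 : ℝ)| * s0 := by
        rw [a1]; exact mul_le_mul_of_nonneg_left hss hb1p.le
      exact le_of_mul_le_mul_right this hs0pos
    have c2' : |(b0 : ℝ)| * |t0| < |(b1 : ℝ)| * |t0| := by
      rw [a2]; exact mul_lt_mul_of_pos_left hst0 hb1p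
    have c3' := mul_le_mul_of_nonneg_right c1' (abs_nonneg t0)
    linarith
  have hp4 : |(q : ℝ) * α - p| ≤ 4 * th α k := by
    have h1 : Real.sqrt (u : ℝ) ≤ u := by
      rw [Real.sqrt_le_left (by linarith)]
      nlinarith
    have h2 : |(q : ℝ) * α - p| * u ≤ (4 * th α k) * u := by
      refine hp_bd.trans ?_
      rw [mul_comm (4 * th α k)]
      exact mul_le_mul_of_nonneg_right h1 (by positivity)
    exact le_of_mul_le_mul_right h2 hupos
  have hqne : q ≠ 0 := by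
    intro hq0
    have hp0 : p = 0 := by
      have h1 : |(q : ℝ) * α - p| < 1 := lt_of_le_of_lt hp4 hθ4
      rw [hq0] at h1
      simp only [Int.cast_zero, zero_mul, zero_sub, abs_neg] at h1
      exact Int.abs_lt_one_iff.1 (by exact_mod_cast h1)
    apply hnz
    constructor
    · rw [← hUq, hq0]; simp
    · have := hUp
      rw [hq0, hp0] at this
      simp at this
      linarith
  refine ⟨q, p, r, hqne, hp4, ?_⟩
  have hEθ : (den α (k + 1 + l) : ℝ) * th α k ≤ (c2 * ρ / δ) * ρ ^ l := by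
    have h1 := (hg k (1 + l) (by omega)).2
    rw [show k + (1 + l) = k + 1 + l by ring] at h1
    calc (den α (k + 1 + l) : ℝ) * th α k ≤ (c2 * ρ ^ (1 + l) * den α k) * th α k :=
          mul_le_mul_of_nonneg_right h1 (hth k).le
      _ = c2 * ρ ^ (1 + l) * (den α k * th α k) := by ring
      _ ≤ c2 * ρ ^ (1 + l) * (1 / δ) := mul_le_mul_of_nonneg_left (hQth k) (by positivity)
      _ = _ := by rw [pow_add, pow_one]; ring
  exact core_arith (abs_nonneg _) (abs_nonneg _) (abs_nonneg _) hu1R (hQ _) (hth k).le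
    hCY0 hB0' (pow_pos hρ0 l) (pow_pos hρ0 h) hq_bd hp_bd hr_bd hEθ hu_low

end bad

end Pool.Agent.H18.LC
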