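import Pool.Agent.H18.LC.Quad

/-!
# Quadratic `α`: runs of exponent above `3/2` give small products
-/

set_option autoImplicit false

namespace Pool.Agent.H18.LC

open Finset
open Pool.Agent.H1.PC

lemma per_mul {c : ℕ → ℤ} {k0 m : ℕ} (hper : ∀ k, k0 ≤ k → c (k + m) = c k) (t : ℕ) :
    ∀ k, k0 ≤ k → c (k + t * m) = c k := by
  induction t with
  | zero => intro k _; simp
  | succ t ih =>
    intro k hk
    rw [show k + (t + 1) * m = k + t * m + m by ring, hper _ (by omega), ih k hk]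

/-- A window equality of length at least the period extends to all positions. -/
lemma per_of_window {c : ℕ → ℤ} {k0 m : ℕ} (hm : 1 ≤ m)
    (hper : ∀ k, k0 ≤ k → c (k + m) = c k) {a l s : ℕ} (ha : k0 ≤ a) (hs : m ≤ s)
    (h : ∀ i < s, c (a + i) = c (a + l + i)) : ∀ k, k0 ≤ k → c (k + l) = c k := by
  intro k hk
  have ham : a ≤ k + a * m := le_trans (Nat.le_mul_of_pos_right a hm) (Nat.le_add_left _ _)
  set d := k + a * m - a with hd
  have hd' : k + a * m = a + d := by omega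
  have hi : d % m < m := Nat.mod_lt _ hm
  have hdm : d = d % m + (d / m) * m := by
    have := Nat.mod_add_div d m
    rw [mul_comm] at this
    omega
  have e1 : c k = c (a + d % m) := by
    rw [← per_mul hper a k hk, hd']
    conv_lhs => rw [hdm, ← add_assoc]
    rw [per_mul hper (d / m) (a + d % m) (by omega)]
  have e2 : c (k + l) = c (a + l + d % m) := by
    rw [← per_mul hper a (k + l) (by omega), show k + l + a * m = a + l + d by omega]
    conv_lhs => rw [hdm, ← add_assoc]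
    rw [per_mul hper (d / m) (a + l + d % m) (by omega)]
  rw [e1, e2, ← h (d % m) (by omega)]

lemma min_period {c : ℕ → ℤ} {k0 m0 : ℕ} (hm0 : 1 ≤ m0)
    (hper : ∀ k, k0 ≤ k → c (k + m0) = c k) :
    ∃ m, 1 ≤ m ∧ (∀ k, k0 ≤ k → c (k + m) = c k) ∧
      ∀ a l s, k0 ≤ a → m ≤ s → (∀ i < s, c (a + i) = c (a + l + i)) → ∃ j, l = j * m := by
  classical
  have hex : ∃ m, 1 ≤ m ∧ ∀ k, k0 ≤ k → c (k + m) = c k := ⟨m0, hm0, hper⟩
  set m := Nat.find hex with hm
  obtain ⟨h1, h2⟩ := Nat.find_spec hex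
  have hmin := fun r => Nat.find_min hex (m := r)
  refine ⟨m, h1, h2, fun a l s ha hs h => ?_⟩
  have h3 := per_of_window h1 h2 ha hs h
  by_contra hcon
  have hr : l % m ≠ 0 := by
    intro h0
    apply hcon
    refine ⟨l / m, ?_⟩
    have := Nat.mod_add_div l m
    rw [h0, zero_add, mul_comm] at this
    exact this.symm
  have hlt : l % m < m := Nat.mod_lt _ h1
  apply hmin (l % m) hlt
  refine ⟨Nat.one_le_iff_ne_zero.2 hr, fun k hk => ?_⟩
  have h4 := per_mul h2 (l / m) (k + l % m) (by omega)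
  have h5 : k + l % m + l / m * m = k + l := by
    have := Nat.mod_add_div l m
    rw [mul_comm] at this
    omega
  rw [← h4, h5]
  exact h3 k hk

/-- The quadratic case. -/
lemma quad_case {α : ℝ} (hα : Irrational α) {δ : ℝ} (hδ : 0 < δ)
    (hbad : ∀ q : ℕ, 0 < q → ∀ p : ℤ, δ ≤ (q : ℝ) * |(q : ℝ) * α - p|)
    {β : ℝ} {R : ℕ → ℤ} {M : ℝ} (hM : ∀ k, |(den α k : ℝ) * β - R k| ≤ M)
    {k0 m0 : ℕ} (hm0 : 1 ≤ m0) (hper : ∀ k, k0 ≤ k → pq α (k + m0) = pq α k)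
    {L0 : ℕ} (hno : ∀ (n l s : ℕ) (τ : ℤ), (τ = 1 ∨ τ = -1) → 1 ≤ l →
      Run α R τ n l s → s < 2 * l + L0)
    (hrun : ∀ K : ℕ, ∃ (n l s : ℕ) (τ : ℤ), (τ = 1 ∨ τ = -1) ∧ 1 ≤ l ∧ l + K ≤ 2 * s ∧
      Run α R τ n l s)
    (ε : ℝ) (hε : 0 < ε) (N : ℕ) :
    ∃ q : ℕ, N ≤ q ∧ 0 < q ∧ ∃ p r : ℤ,
      (q : ℝ) * |(q : ℝ) * α - p| * |(q : ℝ) * β - r| < ε := by
  have hd1 := delta_le_one hα hδ hbad
  obtain ⟨m, hm, hperm, hmul⟩ := min_period hm0 hper
  obtain ⟨T, hT⟩ := trace_exists (α := α) hperm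
  obtain ⟨ρ, c1, c2, hρ, hc1, hc2, hg⟩ := growth hα hδ hbad hm hT
  set k1 := max k0 1 with hk1
  have hk01 : k0 ≤ k1 := le_max_left _ _
  have hk11 : 1 ≤ k1 := le_max_right _ _
  have hg' : ∀ k h, k1 ≤ k → c1 * ρ ^ h * den α k ≤ den α (k + h) ∧
      (den α (k + h) : ℝ) ≤ c2 * ρ ^ h * den α k :=
    fun k h hk => hg k h (by omega) (by omega)
  have hρ0 : 0 < ρ := by linarith
  set G : ℝ := ((32 * (c2 * ρ / δ) * ((4 * M / (δ * c1)) * (c2 * ρ ^ 2 + ρ + 1))) ^ 4 /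
          ((δ / 2 * c1 / ((|T| + 3) * c2)) ^ 2 / ρ ^ (2 * m)) ^ 3) with hG
  have hG0 : 0 ≤ G := by
    have h1 : (0 : ℝ) ≤ ((|T| : ℤ) : ℝ) := by exact_mod_cast abs_nonneg T
    rw [hG]
    positivity
  -- parameters
  obtain ⟨K1, hK1⟩ := exists_pow_lt_of_lt_one (show (0 : ℝ) < δ / 2 by positivity)
    (show 1 - δ < 1 by linarith)
  obtain ⟨K2, hK2⟩ := pow_unbounded_of_one_lt (2 / δ) (show (1 : ℝ) < 1 + δ by linarith)
  obtain ⟨K3, hK3⟩ := pow_unbounded_of_one_lt (G * ρ ^ 2 / ε ^ 4) hρ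
  obtain ⟨K4, hK4⟩ := exists_nat_gt (4 / δ)
  obtain ⟨K5, hK5⟩ := exists_nat_ge (4 * (N : ℝ) / δ ^ 2)
  set K := 3 * (K1 + K2 + 1) + 2 * L0 + K3 + 4 * (K4 + K5 + 1) + 2 * m + 4 with hK
  obtain ⟨n', l, s', τ, hτ, hl1, hls, hr'⟩ := hrun (K + 2 * k1)
  -- drop the first `k1` positions
  set n := n' + k1 with hn
  set s := s' - k1 with hs
  have hs' : s' = s + k1 := by omega
  have hr : Run α R τ n l s := by
    intro i hi
    have := hr' (i + k1) (by omega)
    rw [show n' + (i + k1) + 1 = n + i + 1 by omega, show n' + l + (i + k1) + 1 = n + l + i + 1 by omega,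
      show n' + l + (i + k1) = n + l + i by omega, show n' + (i + k1) = n + i by omega] at this
    exact this
  have hls2 : l + K ≤ 2 * s := by omega
  have hno' := hno n l s τ hτ hl1 hr
  have hlbig : K1 + K2 + 1 ≤ l := by omega
  have hsm : m ≤ s := by omega
  obtain ⟨j, hj⟩ := hmul (n + 1) l s (by omega) hsm (fun i hi => by
    have := (hr i hi).1
    rw [show n + 1 + i = n + i + 1 by ring, show n + 1 + l + i = n + l + i + 1 by ring]
    exact this)
  set h := s / 2 with hh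
  have hh2 : 2 * h ≤ s := by omega
  have hh3 : K4 + K5 + 1 ≤ h := by omega
  have hx : (1 - δ) ^ l < δ / 2 :=
    lt_of_le_of_lt (pow_le_pow_of_le_one (by linarith) (by linarith) (by omega)) hK1
  have hy : 2 / δ ≤ (1 + δ) ^ (l - 1) :=
    hK2.le.trans (pow_le_pow_right₀ (by linarith) (by omega))
  have hQk : (h : ℝ) ≤ den α (n + h + 1) := by
    have h1 : ((n + h + 1 : ℕ) : ℤ) ≤ den α (n + h + 1) := den_ge hα _
    have h2 : ((h : ℕ) : ℤ) ≤ den α (n + h + 1) := by push_cast at h1 ⊢; omega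
    exact_mod_cast h2
  have hhR : (0 : ℝ) < h := by
    have : 0 < h := by omega
    exact_mod_cast this
  have hθh : th α (n + h + 1) * (δ * h) ≤ 1 := by
    have h1 := (step_facts hα hδ hbad (n + h + 1)).2.2
    have h2 := (th_pos hα (n + h + 1)).1
    rw [le_div_iff₀ hδ] at h1
    have h3 : th α (n + h + 1) * (δ * h) ≤ th α (n + h + 1) * (δ * den α (n + h + 1)) := by
      apply mul_le_mul_of_nonneg_left _ h2.le
      exact mul_le_mul_of_nonneg_left hQk hδ.le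
    linarith
  have hθ4 : 4 * th α (n + h + 1) < 1 := by
    have h2 := (th_pos hα (n + h + 1)).1
    have h3 : (K4 : ℝ) < h := by
      have : K4 < h := by omega
      exact_mod_cast this
    have h4 : 4 < δ * h := by
      rw [div_lt_iff₀ hδ] at hK4
      have := mul_lt_mul_of_pos_left h3 hδ
      linarith
    have h5 := mul_lt_mul_of_pos_left h4 h2
    linarith
  obtain ⟨q, p, r, hq0, hqp, hX⟩ := core hα hδ hbad hM hT hk01 hρ hc1 hc2 hg' hτ
    (by omega : k1 ≤ n) hh2 (by omega : 1 ≤ h) hj hl1 hr hx hy hθ4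
  rw [← hG] at hX
  -- the product is small
  have hXε : (|(q : ℝ)| * |(q : ℝ) * α - p| * |(q : ℝ) * β - r|) ^ 4 < ε ^ 4 := by
    refine lt_of_le_of_lt hX ?_
    have h1 : ρ ^ l * ρ ^ K3 ≤ ρ ^ 2 * (ρ ^ h) ^ 4 := by
      rw [← pow_add, ← pow_mul, ← pow_add]
      exact pow_le_pow_right₀ hρ.le (by omega)
    have h2 : G * ρ ^ 2 < ρ ^ K3 * ε ^ 4 := by
      rwa [div_lt_iff₀ (by positivity)] at hK3
    rw [div_lt_iff₀ (by positivity)]
    have hp3 : 0 < ρ ^ K3 := by positivity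
    have h3 : ρ ^ K3 * (G * ρ ^ l) < ρ ^ K3 * (ε ^ 4 * (ρ ^ h) ^ 4) := by
      calc ρ ^ K3 * (G * ρ ^ l) = G * (ρ ^ l * ρ ^ K3) := by ring
        _ ≤ G * (ρ ^ 2 * (ρ ^ h) ^ 4) := mul_le_mul_of_nonneg_left h1 hG0
        _ = (G * ρ ^ 2) * (ρ ^ h) ^ 4 := by ring
        _ < (ρ ^ K3 * ε ^ 4) * (ρ ^ h) ^ 4 := mul_lt_mul_of_pos_right h2 (by positivity)
        _ = _ := by ring
    exact lt_of_mul_lt_mul_left h3 hp3.le
  have hX1 : |(q : ℝ)| * |(q : ℝ) * α - p| * |(q : ℝ) * β - r| < ε :=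
    lt_of_pow_lt_pow_left₀ 4 hε.le hXε
  -- the sign of `q`
  have key : ∀ q p r : ℤ, 0 < q → |(q : ℝ) * α - p| ≤ 4 * th α (n + h + 1) →
      (q : ℝ) * |(q : ℝ) * α - p| * |(q : ℝ) * β - r| < ε →
      ∃ q : ℕ, N ≤ q ∧ 0 < q ∧ ∃ p r : ℤ,
      (q : ℝ) * |(q : ℝ) * α - p| * |(q : ℝ) * β - r| < ε := by
    intro q p r hq hqp hX
    have hqN : (N : ℝ) ≤ q := by
      have h1 := bad_int hα hδ hbad q hq p
      have hqR : (0 : ℝ) < q := by exact_mod_cast hq
      have h2 : δ ≤ q * (4 * th α (n + h + 1)) :=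
        h1.trans (mul_le_mul_of_nonneg_left hqp hqR.le)
      have h3 : δ * (δ * h) ≤ 4 * q := by
        have h4 := mul_le_mul_of_nonneg_right h2 (show (0 : ℝ) ≤ δ * h by positivity)
        have h5 := mul_le_mul_of_nonneg_left hθh (show (0 : ℝ) ≤ 4 * (q : ℝ) by positivity)
        linarith
      have h6 : (K5 : ℝ) ≤ h := by
        have : K5 ≤ h := by omega
        exact_mod_cast this
      rw [div_le_iff₀ (by positivity)] at hK5
      have h7 := mul_le_mul_of_nonneg_right h6 (show (0 : ℝ) ≤ δ ^ 2 by positivity)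
      nlinarith
    obtain ⟨q', hq'⟩ : ∃ q' : ℕ, q = q' := ⟨q.toNat, by omega⟩
    rw [hq'] at hX hqN hq
    refine ⟨q', by exact_mod_cast hqN, by exact_mod_cast hq, p, r, ?_⟩
    exact_mod_cast hX
  rcases Int.lt_or_lt_of_ne hq0 with hneg | hpos
  · apply key (-q) (-p) (-r) (by omega)
    · push_cast
      rw [show -(q : ℝ) * α - -(p : ℝ) = -((q : ℝ) * α - p) by ring, abs_neg]
      exact hqp
    · have hqR : (q : ℝ) < 0 := by exact_mod_cast hneg
      rw [abs_of_neg hqR] at hX1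
      push_cast
      rw [show -(q : ℝ) * α - -(p : ℝ) = -((q : ℝ) * α - p) by ring,
        show -(q : ℝ) * β - -(r : ℝ) = -((q : ℝ) * β - r) by ring, abs_neg, abs_neg]
      exact hX1
  · apply key q p r hpos hqp
    have hqR : (0 : ℝ) < q := by exact_mod_cast hpos
    rw [abs_of_pos hqR] at hX1
    exact hX1

end Pool.Agent.H18.LC
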