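import Pool.Agent.H18.LC.Window

/-!
# Runs of exponent above `3`, up to sign (general `α`)
-/

set_option autoImplicit false

namespace Pool.Agent.H18.LC

open Finset
open Pool.Agent.H1.PC

/-- A run of period `l` and length `l + s` at `n`, up to the sign `τ` of the digits of `β`. -/
def Run (α : ℝ) (R : ℕ → ℤ) (τ : ℤ) (n l s : ℕ) : Prop :=
  ∀ i < s, pq α (n + i + 1) = pq α (n + l + i + 1) ∧
    digit α R (n + l + i) = τ * digit α R (n + i)

lemma diff_bound {α β : ℝ} {R : ℕ → ℤ} {M : ℝ} (hM : ∀ k, |(den α k : ℝ) * β - R k| ≤ M)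
    {τ : ℤ} (hτ : τ = 1 ∨ τ = -1) (l k : ℕ) :
    |((den α (k + l) : ℝ) * β - R (k + l)) - τ * ((den α k : ℝ) * β - R k)| ≤ 2 * M := by
  have hτabs : |(τ : ℝ)| = 1 := by
    rcases hτ with h | h <;> rw [h] <;> norm_num
  refine (abs_sub _ _).trans ?_
  rw [abs_mul, hτabs, one_mul]
  have h1 := hM k
  have h2 := hM (k + l)
  linarith

/-- runs of exponent above `3` -/
lemma run_case {α : ℝ} (hα : Irrational α) {δ : ℝ} (hδ : 0 < δ)
    (hbad : ∀ q : ℕ, 0 < q → ∀ p : ℤ, δ ≤ (q : ℝ) * |(q : ℝ) * α - p|)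
    {β : ℝ} {R : ℕ → ℤ} {M : ℝ} (hM : ∀ k, |(den α k : ℝ) * β - R k| ≤ M)
    (hrun : ∀ L : ℕ, ∃ (n l s : ℕ) (τ : ℤ), (τ = 1 ∨ τ = -1) ∧ 1 ≤ l ∧ 2 * l + L ≤ s ∧
      Run α R τ n l s)
    (ε : ℝ) (hε : 0 < ε) (N : ℕ) :
    ∃ q : ℕ, N ≤ q ∧ 0 < q ∧ ∃ p r : ℤ,
      (q : ℝ) * |(q : ℝ) * α - p| * |(q : ℝ) * β - r| < ε := by
  have hM0 : 0 ≤ M := (abs_nonneg _).trans (hM 0)
  have hd1 := delta_le_one hα hδ hbad
  set κ : ℝ := 1 + (1 + 1 / δ) / δ + 1 / δ with hκ
  have hκ0 : 0 < κ := by positivity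
  set C : ℝ := 16 * M * (1 / δ * (1 / δ) + 2 * (1 / δ) * κ * (1 / δ)) with hC
  have hC0 : 0 ≤ C := by positivity
  obtain ⟨K1, hK1⟩ := exists_pow_lt_of_lt_one
    (show (0 : ℝ) < ε / (C + 1) by positivity) (show 1 - δ < 1 by linarith)
  obtain ⟨K3, hK3⟩ := exists_nat_ge ((N : ℝ) / δ)
  set g := K1 + K3 with hg
  obtain ⟨n, l, s, τ, hτ, hl, hls, hp⟩ := hrun (2 * g + 1)
  have hτabs : |(τ : ℝ)| = 1 := by
    rcases hτ with h | h <;> rw [h] <;> norm_num
  set k := n + l + 1 + g with hk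
  have hks : k + l + g ≤ n + s := by omega
  -- the difference
  let V : ℕ → ℝ := fun k => (den α k : ℝ) * β - R k
  let Y : ℕ → ℝ := fun k => V (k + l) - τ * V k
  have hY : ∀ k, |Y k| ≤ 2 * M := fun k => diff_bound hM hτ l k
  have hYrec : ∀ j < s, Y (n + j + 2) = pq α (n + j + 1) * Y (n + j + 1) - Y (n + j) :=
    fun j hj => diff_rec hp j hj
  have hYk := window_bound hα Y (2 * M) hY n s hYrec (l + g) (by omega)
  have ek : n + (l + g) + 1 = k := by omega
  rw [ek] at hYk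
  have hgr := shift_growth hα n l s (fun i hi => (hp i hi).1) (l + g) (by omega)
  rw [ek] at hgr
  -- products
  have hth : ∀ i, 0 ≤ th α i := th_nonneg hα
  have hQ : ∀ i, (0 : ℝ) ≤ den α i := den_cast_nonneg hα
  have b1 : (den α (k + l) : ℝ) * th α (n + s) ≤ (1 / δ) * (1 - δ) ^ g := by
    have h1 := th_decay hα hδ hbad (k + l) g
    have h2 := (step_facts hα hδ hbad (k + l)).2.2
    have h3 : th α (n + s) ≤ th α (k + l + g) := th_anti hα hks
    calc (den α (k + l) : ℝ) * th α (n + s)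
        ≤ den α (k + l) * ((1 - δ) ^ g * th α (k + l)) :=
          mul_le_mul_of_nonneg_left (h3.trans h1) (hQ _)
      _ = (1 - δ) ^ g * (den α (k + l) * th α (k + l)) := by ring
      _ ≤ (1 - δ) ^ g * (1 / δ) :=
          mul_le_mul_of_nonneg_left h2 (pow_nonneg (by linarith) _)
      _ = _ := by ring
  have b2 : (den α k : ℝ) * th α k ≤ 1 / δ := (step_facts hα hδ hbad k).2.2
  have b3 : (den α (n + l + 1) : ℝ) * th α k ≤ (1 / δ) * (1 - δ) ^ g := by
    have h1 := th_decay hα hδ hbad (n + l + 1) g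
    have h2 := (step_facts hα hδ hbad (n + l + 1)).2.2
    calc (den α (n + l + 1) : ℝ) * th α k
        ≤ den α (n + l + 1) * ((1 - δ) ^ g * th α (n + l + 1)) :=
          mul_le_mul_of_nonneg_left h1 (hQ _)
      _ = (1 - δ) ^ g * (den α (n + l + 1) * th α (n + l + 1)) := by ring
      _ ≤ (1 - δ) ^ g * (1 / δ) :=
          mul_le_mul_of_nonneg_left h2 (pow_nonneg (by linarith) _)
      _ = _ := by ring
  have b4 : (den α (n + 1) : ℝ) * th α n ≤ κ := by
    have h1 := prod_bound hα hδ hbad n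
    have h2 : (den α (n + 1) : ℝ) ≤ den α (n + 2) := den_cast_mono hα (by omega)
    exact (mul_le_mul_of_nonneg_right h2 (hth _)).trans h1
  have hp0 : 0 ≤ (1 - δ) ^ g := pow_nonneg (by linarith) _
  have t1 : ((den α (k + l) : ℝ) * th α k) * (den α k * th α (n + s)) ≤
      (1 / δ * (1 / δ)) * (1 - δ) ^ g := by
    calc ((den α (k + l) : ℝ) * th α k) * (den α k * th α (n + s))
        = (den α k * th α k) * ((den α (k + l) : ℝ) * th α (n + s)) := by ring
      _ ≤ (1 / δ) * ((1 / δ) * (1 - δ) ^ g) :=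
        mul_le_mul b2 b1 (mul_nonneg (hQ _) (hth _)) (by positivity)
      _ = _ := by ring
  have t2 : ((den α (k + l) : ℝ) * th α k) * (th α k * den α (n + 1)) ≤
      (2 * (1 / δ) * κ * (1 / δ)) * (1 - δ) ^ g := by
    calc ((den α (k + l) : ℝ) * th α k) * (th α k * den α (n + 1))
        ≤ ((2 * (den α k * (den α (n + l + 1) * th α n))) * th α k) *
          (th α k * den α (n + 1)) := by
          apply mul_le_mul_of_nonneg_right _ (mul_nonneg (hth _) (hQ _))
          exact mul_le_mul_of_nonneg_right hgr (hth _)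
      _ = 2 * ((den α k * th α k) * (den α (n + 1) * th α n) *
            (den α (n + l + 1) * th α k)) := by ring
      _ ≤ 2 * ((1 / δ) * κ * ((1 / δ) * (1 - δ) ^ g)) := by
          apply mul_le_mul_of_nonneg_left _ (by norm_num)
          apply mul_le_mul _ b3 (mul_nonneg (hQ _) (hth _)) (by positivity)
          exact mul_le_mul b2 b4 (mul_nonneg (hQ _) (hth _)) (by positivity)
      _ = _ := by ring
  -- the integers
  set q : ℤ := den α (k + l) - τ * den α k with hq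
  set p : ℤ := num α (k + l) - τ * num α k with hpdef
  set r : ℤ := R (k + l) - τ * R k with hr
  have hdk : 0 ≤ den α k := (den_inc hα k).1
  have hkl : den α (k + 1) ≤ den α (k + l) := den_mono hα (by omega)
  have hqlow : (den α (k + 1) - den α k : ℤ) ≤ q := by
    rcases hτ with h | h <;> rw [hq, h] <;> omega
  have hqup : (q : ℝ) ≤ 2 * den α (k + l) := by
    have h1 : q ≤ 2 * den α (k + l) := by
      have h3 := den_mono hα (show k ≤ k + l by omega)
      rcases hτ with h | h <;> rw [hq, h] <;> omega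
    exact_mod_cast h1
  have hqpos : 0 < q := by
    have := (den_inc hα k).2
    omega
  have hqN : (N : ℝ) ≤ q := by
    have h1 := (step_facts hα hδ hbad k).2.1
    have h2 : (k : ℝ) ≤ den α k := by exact_mod_cast den_ge hα k
    have h3 : ((den α (k + 1) - den α k : ℤ) : ℝ) ≤ q := by exact_mod_cast hqlow
    push_cast at h3
    have h5 : (K3 : ℝ) ≤ k := by
      have : K3 ≤ k := by omega
      exact_mod_cast this
    rw [div_le_iff₀ hδ] at hK3
    have h6 : (K3 : ℝ) ≤ den α k := by linarith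
    have h7 : (K3 : ℝ) * δ ≤ δ * den α k := by
      rw [mul_comm]; exact mul_le_mul_of_nonneg_left h6 hδ.le
    nlinarith
  have hqp : |(q : ℝ) * α - p| ≤ 2 * th α k := by
    have e : (q : ℝ) * α - p = -(th α (k + l) - τ * th α k) := by
      rw [hq, hpdef]; unfold th; push_cast; ring
    rw [e, abs_neg]
    refine (abs_sub _ _).trans ?_
    rw [abs_mul, hτabs, one_mul, abs_of_nonneg (hth _), abs_of_nonneg (hth _)]
    have h1 : th α (k + l) ≤ th α k := th_anti hα (by omega)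
    linarith
  have hqr : |(q : ℝ) * β - r| = |Y k| := by
    congr 1
    simp only [Y, V]
    rw [hq, hr]; push_cast; ring
  have hfin : (q : ℝ) * |(q : ℝ) * α - p| * |(q : ℝ) * β - r| < ε := by
    rw [hqr]
    have h1 : (q : ℝ) * |(q : ℝ) * α - p| ≤ (2 * den α (k + l)) * (2 * th α k) :=
      mul_le_mul hqup hqp (abs_nonneg _) (by have := hQ (k + l); positivity)
    have h2 : (q : ℝ) * |(q : ℝ) * α - p| * |Y k| ≤ ((2 * den α (k + l)) * (2 * th α k)) *
        (2 * (2 * M) * (den α k * th α (n + s) + th α k * den α (n + 1))) :=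
      mul_le_mul h1 hYk (abs_nonneg _) (by
        have := hQ (k + l)
        have := hth k
        positivity)
    have h3 : ((2 * den α (k + l)) * (2 * th α k)) *
        (2 * (2 * M) * (den α k * th α (n + s) + th α k * den α (n + 1))) =
        16 * M * (((den α (k + l) : ℝ) * th α k) * (den α k * th α (n + s)) +
          ((den α (k + l) : ℝ) * th α k) * (th α k * den α (n + 1))) := by ring
    rw [h3] at h2
    have h4 : 16 * M * (((den α (k + l) : ℝ) * th α k) * (den α k * th α (n + s)) +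
          ((den α (k + l) : ℝ) * th α k) * (th α k * den α (n + 1))) ≤
        16 * M * ((1 / δ * (1 / δ)) * (1 - δ) ^ g + (2 * (1 / δ) * κ * (1 / δ)) * (1 - δ) ^ g) :=
      mul_le_mul_of_nonneg_left (by linarith) (by positivity)
    have h5 : 16 * M * ((1 / δ * (1 / δ)) * (1 - δ) ^ g +
        (2 * (1 / δ) * κ * (1 / δ)) * (1 - δ) ^ g) = C * (1 - δ) ^ g := by rw [hC]; ring
    rw [h5] at h4
    have h6 : (1 - δ) ^ g ≤ (1 - δ) ^ K1 :=
      pow_le_pow_of_le_one (by linarith) (by linarith) (by omega)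
    have h7 : (1 - δ) ^ g < ε / (C + 1) := lt_of_le_of_lt h6 hK1
    rw [lt_div_iff₀ (by positivity)] at h7
    nlinarith
  obtain ⟨q', hq'⟩ : ∃ q' : ℕ, q = q' := ⟨q.toNat, by omega⟩
  rw [hq'] at hfin hqN hqpos
  refine ⟨q', by exact_mod_cast hqN, by exact_mod_cast hqpos, p, r, ?_⟩
  exact_mod_cast hfin

/-- long blocks of zero digits of `β` -/
lemma zero_case {α : ℝ} (hα : Irrational α) {δ : ℝ} (hδ : 0 < δ)
    (hbad : ∀ q : ℕ, 0 < q → ∀ p : ℤ, δ ≤ (q : ℝ) * |(q : ℝ) * α - p|)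
    {β : ℝ} {R : ℕ → ℤ} {M : ℝ} (hM : ∀ k, |(den α k : ℝ) * β - R k| ≤ M)
    (hzero : ∀ L : ℕ, ∃ n : ℕ, ∀ i < L, digit α R (n + i) = 0)
    (ε : ℝ) (hε : 0 < ε) (N : ℕ) :
    ∃ q : ℕ, N ≤ q ∧ 0 < q ∧ ∃ p r : ℤ,
      (q : ℝ) * |(q : ℝ) * α - p| * |(q : ℝ) * β - r| < ε := by
  have hM0 : 0 ≤ M := (abs_nonneg _).trans (hM 0)
  have hd1 := delta_le_one hα hδ hbad
  set C : ℝ := (1 / δ) * (2 * M * (1 / δ)) with hC
  have hC0 : 0 ≤ C := by positivity
  obtain ⟨K1, hK1⟩ := exists_pow_lt_of_lt_one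
    (show (0 : ℝ) < ε / (2 * (C + 1)) by positivity) (show 1 - δ < 1 by linarith)
  obtain ⟨K2, hK2⟩ := exists_pow_lt_of_lt_one
    (show (0 : ℝ) < ε / (2 * (C + 1)) by positivity)
    (show 1 / (1 + δ) < 1 by rw [div_lt_one (by linarith)]; linarith)
  set K := K1 + K2 + N + 1 with hK
  obtain ⟨n, hn⟩ := hzero (2 * K + 4)
  let V : ℕ → ℝ := fun k => (den α k : ℝ) * β - R k
  have hrec : ∀ j < 2 * K + 4, V (n + j + 2) = pq α (n + j + 1) * V (n + j + 1) - V (n + j) := by
    intro j hj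
    have h3 := digit_cast (α := α) R (n + j)
    have h5 := den_rec (α := α) (n + j)
    rw [hn j hj] at h3
    simp only [V]
    push_cast at h3
    linear_combination β * h5 + h3
  have hVi := window hα hδ hbad V M hM n (2 * K + 4) hrec K (by omega)
  set k := n + 1 + K with hk
  have hq1 := (step_facts hα hδ hbad k).2.2
  have hth := (th_pos hα k).1
  have hge : (k : ℤ) ≤ den α k := den_ge hα k
  have hsmall : (1 - δ) ^ (2 * K + 4 - 1 - K) + 1 / (1 + δ) ^ K < ε / (C + 1) := by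
    have h1 : (1 - δ) ^ (2 * K + 4 - 1 - K) ≤ (1 - δ) ^ K1 :=
      pow_le_pow_of_le_one (by linarith) (by linarith) (by omega)
    have h2 : 1 / (1 + δ) ^ K ≤ (1 / (1 + δ)) ^ K2 := by
      rw [div_pow, one_pow]
      apply one_div_le_one_div_of_le (by positivity)
      exact pow_le_pow_right₀ (by linarith) (by omega)
    have h3 : ε / (2 * (C + 1)) + ε / (2 * (C + 1)) = ε / (C + 1) := by
      field_simp; ring
    linarith
  have hqp : |((den α k : ℤ) : ℝ) * α - num α k| = th α k := by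
    have e : ((den α k : ℤ) : ℝ) * α - num α k = - th α k := by unfold th; ring
    rw [e, abs_neg, abs_of_pos hth]
  have hfin : (den α k : ℝ) * |(den α k : ℝ) * α - num α k| * |(den α k : ℝ) * β - R k| < ε := by
    rw [hqp]
    have h0 : (0 : ℝ) ≤ den α k * th α k := mul_nonneg (den_cast_nonneg hα k) hth.le
    have h1 : (den α k : ℝ) * th α k * |V k| ≤ (1 / δ) *
        (2 * M * (1 / δ) * ((1 - δ) ^ (2 * K + 4 - 1 - K) + 1 / (1 + δ) ^ K)) :=
      mul_le_mul hq1 hVi (abs_nonneg _) (by positivity)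
    have h2 : (1 / δ) *
        (2 * M * (1 / δ) * ((1 - δ) ^ (2 * K + 4 - 1 - K) + 1 / (1 + δ) ^ K)) =
        C * ((1 - δ) ^ (2 * K + 4 - 1 - K) + 1 / (1 + δ) ^ K) := by rw [hC]; ring
    rw [h2] at h1
    refine lt_of_le_of_lt h1 ?_
    rw [lt_div_iff₀ (by positivity)] at hsmall
    have h3 : 0 ≤ (1 - δ) ^ (2 * K + 4 - 1 - K) := pow_nonneg (by linarith) _
    have h4 : 0 ≤ 1 / (1 + δ) ^ K := by positivity
    nlinarith
  obtain ⟨q', hq'⟩ : ∃ q' : ℕ, den α k = q' := ⟨(den α k).toNat, by omega⟩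
  rw [hq'] at hfin hge
  refine ⟨q', by omega, by omega, num α k, R k, ?_⟩
  exact_mod_cast hfin

end Pool.Agent.H18.LC
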