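import Pool.Agent.H18.LC.Words4

/-!
# Words of pairs up to the sign of the second coordinate
-/

set_option autoImplicit false

namespace Pool.Agent.H18.LC

open Set

/-- The pair of a block of `(c, e)` of length `n` and of its mirror image under `e ↦ -e`. -/
def signBlock (c e : ℕ → ℤ) (n i : ℕ) : Set (Fin n → ℤ × ℤ) :=
  {(fun j : Fin n => (c (i + j), e (i + j))), (fun j : Fin n => (c (i + j), -e (i + j)))}

/-- The sign of the last nonzero digit before `k`. -/
def sg (e : ℕ → ℤ) : ℕ → ℤ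
  | 0 => 1
  | k + 1 => if e k = 0 then sg e k else (e k).sign

lemma sg_sq (e : ℕ → ℤ) (k : ℕ) : sg e k * sg e k = 1 := by
  induction k with
  | zero => simp [sg]
  | succ k ih =>
    unfold sg
    split_ifs with h
    · exact ih
    · rcases Int.lt_or_lt_of_ne h with h1 | h1
      · rw [Int.sign_eq_neg_one_of_neg h1]; norm_num
      · rw [Int.sign_eq_one_of_pos h1]; norm_num

lemma sg_pm (e : ℕ → ℤ) (k : ℕ) : sg e k = 1 ∨ sg e k = -1 :=
  mul_self_eq_one_iff.1 (sg_sq e k)

/-- The relative coding. -/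
def rel (c e : ℕ → ℤ) (k : ℕ) : ℤ × ℤ := (c k, sg e k * e k)

lemma sg_step (e : ℕ → ℤ) (k : ℕ) :
    sg e (k + 1) = sg e k * (if sg e k * e k = 0 then 1 else (sg e k * e k).sign) := by
  have h1 := sg_pm e k
  have h2 : (sg e k * e k = 0) ↔ e k = 0 := by
    rcases h1 with h | h <;> rw [h] <;> simp
  have hs : sg e (k + 1) = if e k = 0 then sg e k else (e k).sign := rfl
  rw [hs]
  by_cases h3 : e k = 0
  · rw [if_pos h3, if_pos (h2.2 h3), mul_one]
  · rw [if_neg h3, if_neg (fun h => h3 (h2.1 h))]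
    rcases h1 with h | h <;> rw [h]
    · simp
    · simp [Int.sign_neg]

/-- A run of the relative coding is a run of the original word up to sign. -/
lemma rel_run {c e : ℕ → ℤ} {i l s : ℕ}
    (h : ∀ j < s, rel c e (i + j) = rel c e (i + l + j)) :
    ∃ τ : ℤ, (τ = 1 ∨ τ = -1) ∧
      ∀ j < s, c (i + j) = c (i + l + j) ∧ e (i + l + j) = τ * e (i + j) := by
  set τ := sg e i * sg e (i + l) with hτ
  have hsg : ∀ j ≤ s, sg e (i + l + j) = τ * sg e (i + j) := by
    intro j
    induction j with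
    | zero =>
      intro _
      rw [hτ]
      simp only [Nat.add_zero]
      linear_combination (-(sg e (i + l))) * sg_sq e i
    | succ j ih =>
      intro hj
      have h1 := ih (by omega)
      have h2 := (Prod.ext_iff.1 (h j (by omega))).2
      simp only [rel] at h2
      rw [show i + l + (j + 1) = i + l + j + 1 by ring, show i + (j + 1) = i + j + 1 by ring,
        sg_step, sg_step e (i + j), ← h2, h1]
      ring
  refine ⟨τ, ?_, fun j hj => ?_⟩
  · rcases sg_pm e i with h1 | h1 <;> rcases sg_pm e (i + l) with h2 | h2 <;>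
      simp [hτ, h1, h2]
  · have h2 := Prod.ext_iff.1 (h j hj)
    simp only [rel] at h2
    refine ⟨h2.1, ?_⟩
    have h3 := hsg j hj.le
    have h4 := sg_sq e (i + l + j)
    calc e (i + l + j) = sg e (i + l + j) * (sg e (i + l + j) * e (i + l + j)) := by
          rw [← mul_assoc, h4, one_mul]
      _ = sg e (i + l + j) * (sg e (i + j) * e (i + j)) := by rw [← h2.2]
      _ = τ * (sg e (i + j) * sg e (i + j)) * e (i + j) := by rw [h3]; ring
      _ = τ * e (i + j) := by rw [sg_sq, mul_one]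

lemma signBlock_eq {c e : ℕ → ℤ} {n i i' : ℕ} (h : signBlock c e n i = signBlock c e n i') :
    ∃ τ : ℤ, (τ = 1 ∨ τ = -1) ∧ ∀ t < n, c (i' + t) = c (i + t) ∧ e (i' + t) = τ * e (i + t) := by
  have h1 : (fun j : Fin n => (c (i' + j), e (i' + j))) ∈ signBlock c e n i := by
    rw [h]; exact Set.mem_insert _ _
  rcases h1 with h1 | h1
  · refine ⟨1, Or.inl rfl, fun t ht => ?_⟩
    have := Prod.ext_iff.1 (congrFun h1 ⟨t, ht⟩)
    simp only at this
    exact ⟨this.1, by rw [one_mul]; exact this.2⟩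
  · rw [Set.mem_singleton_iff] at h1
    refine ⟨-1, Or.inr rfl, fun t ht => ?_⟩
    have := Prod.ext_iff.1 (congrFun h1 ⟨t, ht⟩)
    simp only at this
    exact ⟨this.1, by rw [this.2]; ring⟩

/-- The relative block is determined by a slightly longer block up to sign. -/
lemma rel_det {c e : ℕ → ℤ} {g : ℕ} (hg : ∀ i, ∃ j < g, e (i + j) ≠ 0) {n i i' : ℕ}
    (h : signBlock c e (n + g) i = signBlock c e (n + g) i') :
    blk (rel c e) n (i + g) = blk (rel c e) n (i' + g) := by
  obtain ⟨τ, hτ, hh⟩ := signBlock_eq h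
  have hττ : τ * τ = 1 := by rcases hτ with h | h <;> rw [h] <;> norm_num
  obtain ⟨j, hj, hne⟩ := hg i
  have hτ0 : τ ≠ 0 := by rcases hτ with h | h <;> rw [h] <;> norm_num
  have hsg : ∀ t, j + 1 ≤ t → t ≤ n + g → sg e (i' + t) = τ * sg e (i + t) := by
    intro t ht
    induction t, ht using Nat.le_induction with
    | base =>
      intro _
      have h1 := (hh j (by omega)).2
      have hne' : e (i' + j) ≠ 0 := by rw [h1]; exact mul_ne_zero hτ0 hne
      rw [← Nat.add_assoc, ← Nat.add_assoc]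
      simp only [sg]
      rw [if_neg hne, if_neg hne', h1, Int.sign_mul]
      congr 1
      rcases hτ with h | h <;> rw [h] <;> rfl
    | succ t ht ih =>
      intro ht2
      have h1 := ih (by omega)
      have h2 := (hh t (by omega)).2
      rw [← Nat.add_assoc, ← Nat.add_assoc, sg_step, sg_step e (i + t), h1, h2]
      have e1 : τ * sg e (i + t) * (τ * e (i + t)) = sg e (i + t) * e (i + t) := by
        linear_combination sg e (i + t) * e (i + t) * hττ
      rw [e1]; ring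
  rw [blk_eq_iff]
  intro t ht
  have h1 := hh (g + t) (by omega)
  have h2 := hsg (g + t) (by omega) (by omega)
  rw [Nat.add_assoc, Nat.add_assoc]
  unfold rel
  rw [h1.1, h1.2, h2]
  congr 1
  linear_combination (-(sg e (i + (g + t)) * e (i + (g + t)))) * hττ

/-- The number of relative blocks is at most the number of slightly longer blocks up to sign. -/
lemma rel_complexity {c e : ℕ → ℤ} {g : ℕ} (hg : ∀ i, ∃ j < g, e (i + j) ≠ 0) (n : ℕ) :
    (FI (rel c e) n).encard ≤ (Set.range (signBlock c e (n + g))).encard := by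
  classical
  have h : ∀ S ∈ Set.range (signBlock c e (n + g)), ∃ i, signBlock c e (n + g) i = S :=
    fun S hS => hS
  have h' : ∀ S : Set (Fin (n + g) → ℤ × ℤ), ∃ i, S ∈ Set.range (signBlock c e (n + g)) →
      signBlock c e (n + g) i = S := by
    intro S
    by_cases hS : S ∈ Set.range (signBlock c e (n + g))
    · obtain ⟨i, hi⟩ := h S hS
      exact ⟨i, fun _ => hi⟩
    · exact ⟨0, fun h' => absurd h' hS⟩
  choose f hf using h'
  have hsub : FI (rel c e) n ⊆
      (fun S => blk (rel c e) n (f S + g)) '' Set.range (signBlock c e (n + g)) := by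
    intro b hb
    obtain ⟨i, hi, rfl⟩ := hb g
    refine ⟨signBlock c e (n + g) (i - g), ⟨i - g, rfl⟩, ?_⟩
    have := rel_det (n := n) hg (hf _ ⟨i - g, rfl⟩)
    simp only
    rw [this, show i - g + g = i by omega]
  exact (Set.encard_le_encard hsub).trans (Set.encard_image_le _ _)

lemma rel_finite {c e : ℕ → ℤ} {B : ℤ} (hc : ∀ k, |c k| ≤ B) (he : ∀ k, |e k| ≤ B) (n : ℕ) :
    (Set.range (blk (rel c e) n)).Finite := by
  have h1 : (Set.Icc (-B) B ×ˢ Set.Icc (-B) B : Set (ℤ × ℤ)).Finite :=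
    (Set.finite_Icc _ _).prod (Set.finite_Icc _ _)
  have h2 : (Set.pi Set.univ (fun _ : Fin n => (Set.Icc (-B) B ×ˢ Set.Icc (-B) B : Set (ℤ × ℤ)))).Finite :=
    Set.Finite.pi (fun _ => h1)
  refine h2.subset ?_
  rintro _ ⟨i, rfl⟩ j -
  have h3 := abs_le.1 (hc (i + j))
  have h4 : |sg e (i + j) * e (i + j)| ≤ B := by
    rw [abs_mul]
    rcases sg_pm e (i + j) with h | h <;> rw [h] <;> simpa using he (i + j)
  have h5 := abs_le.1 h4
  exact ⟨⟨h3.1, h3.2⟩, ⟨h5.1, h5.2⟩⟩

/-- **Words up to sign, exponent `3`.** -/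
theorem sign_exp3 {c e : ℕ → ℤ} {B : ℤ} (hc : ∀ k, |c k| ≤ B) (he : ∀ k, |e k| ≤ B)
    {g : ℕ} (hg : ∀ i, ∃ j < g, e (i + j) ≠ 0)
    (hP : ∀ G : ℕ, ∃ n : ℕ, (Set.range (signBlock c e n)).encard + G ≤ (2 * n : ℕ)) (L : ℕ) :
    ∃ (i l s : ℕ) (τ : ℤ), (τ = 1 ∨ τ = -1) ∧ 1 ≤ l ∧ 2 * l + L ≤ s ∧
      ∀ j < s, c (i + j) = c (i + l + j) ∧ e (i + l + j) = τ * e (i + j) := by
  obtain ⟨i, l, s, hl, hs, h⟩ := exp3 (rel_finite hc he) (x := rel c e) (by
    intro G
    obtain ⟨n, hn⟩ := hP (G + 2 * g)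
    have h1 := rel_complexity (c := c) hg (n - g)
    have hng : g ≤ n := by
      have h2 : ((G + 2 * g : ℕ) : ℕ∞) ≤ (2 * n : ℕ) := le_trans (le_add_self) hn
      have h3 : G + 2 * g ≤ 2 * n := by exact_mod_cast h2
      omega
    rw [show n - g + g = n by omega, ← (FI_finite (rel_finite hc he) (n - g)).cast_ncard_eq] at h1
    have h2 : (((FI (rel c e) (n - g)).ncard + (G + 2 * g) : ℕ) : ℕ∞) ≤ (2 * n : ℕ) := by
      push_cast at hn ⊢
      exact le_trans (by gcongr) hn
    have h3 : (FI (rel c e) (n - g)).ncard + (G + 2 * g) ≤ 2 * n := by exact_mod_cast h2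
    exact ⟨n - g, by omega⟩) L
  obtain ⟨τ, hτ, h'⟩ := rel_run h
  exact ⟨i, l, s, τ, hτ, hl, hs, h'⟩

/-- **Words up to sign, exponent `3/2`.** -/
theorem sign_exp32 {c e : ℕ → ℤ} {B : ℤ} (hc : ∀ k, |c k| ≤ B) (he : ∀ k, |e k| ≤ B)
    {g : ℕ} (hg : ∀ i, ∃ j < g, e (i + j) ≠ 0) {K : ℕ}
    (H : ∀ (i l s : ℕ) (τ : ℤ), (τ = 1 ∨ τ = -1) → 1 ≤ l →
      (∀ j < s, c (i + j) = c (i + l + j) ∧ e (i + l + j) = τ * e (i + j)) → 2 * s < l + K)
    (n : ℕ) : ((3 * n : ℕ) : ℕ∞) ≤ (Set.range (signBlock c e n)).encard + (2 * K + 3 + 3 * g : ℕ) := by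
  rcases Nat.lt_or_ge n g with hn | hn
  · refine le_trans ?_ le_add_self
    exact_mod_cast (by omega : 3 * n ≤ 2 * K + 3 + 3 * g)
  · have h1 := exp32 (rel_finite hc he) (x := rel c e) (K := K) (by
      intro i l s hl h
      obtain ⟨τ, hτ, h'⟩ := rel_run h
      exact H i l s τ hτ hl h') (n - g)
    have h2 := rel_complexity (c := c) hg (n - g)
    rw [show n - g + g = n by omega, ← (FI_finite (rel_finite hc he) (n - g)).cast_ncard_eq] at h2
    calc ((3 * n : ℕ) : ℕ∞) ≤ (((FI (rel c e) (n - g)).ncard + (2 * K + 3 + 3 * g) : ℕ) : ℕ∞) := by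
          exact_mod_cast (by omega : 3 * n ≤ (FI (rel c e) (n - g)).ncard + (2 * K + 3 + 3 * g))
      _ = ((FI (rel c e) (n - g)).ncard : ℕ∞) + (2 * K + 3 + 3 * g : ℕ) := by push_cast; rfl
      _ ≤ _ := by gcongr

end Pool.Agent.H18.LC
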