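import Pool.Agent.H1.PC.PalindromicCoding

/-!
# Windows: bounded solutions of the recurrence of `α` are tiny inside a window

(adapted from helper1's `LongRepetitions`)
-/

set_option autoImplicit false

namespace Pool.Agent.H18.LC

open Finset
open Pool.Agent.H1.PC

variable {α : ℝ}

/-- A solution of the recurrence of `α` on a window is a combination of `Q` and `θ`. -/
lemma window_repr (y : ℕ → ℝ) (a s : ℕ)
    (hrec : ∀ i < s, y (a + i + 2) = pq α (a + i + 1) * y (a + i + 1) - y (a + i)) :
    (∀ j ≤ s, y (a + j + 1) * th α (a + j) - y (a + j) * th α (a + j + 1) =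
      y (a + 1) * th α a - y a * th α (a + 1)) ∧
    (∀ j ≤ s, y (a + j + 1) =
      den α (a + j + 1) * (y (a + 1) * th α a - y a * th α (a + 1)) -
      th α (a + j + 1) * (y (a + 1) * den α a - y a * den α (a + 1))) := by
  have hW : ∀ j ≤ s, y (a + j + 1) * th α (a + j) - y (a + j) * th α (a + j + 1) =
      y (a + 1) * th α a - y a * th α (a + 1) := by
    intro j
    induction j with
    | zero => intro _; simp
    | succ j ih =>
      intro hj
      rw [← ih (by omega)]
      have h1 := hrec j (by omega)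
      have h2 : th α (a + j + 2) = pq α (a + j + 1) * th α (a + j + 1) - th α (a + j) :=
        th_rec (a + j)
      have e1 : a + (j + 1) + 1 = a + j + 2 := by ring
      have e2 : a + (j + 1) = a + j + 1 := by ring
      rw [e1, e2, h1, h2]; ring
  have hW' : ∀ j ≤ s, y (a + j + 1) * den α (a + j) - y (a + j) * den α (a + j + 1) =
      y (a + 1) * den α a - y a * den α (a + 1) := by
    intro j
    induction j with
    | zero => intro _; simp
    | succ j ih =>
      intro hj
      rw [← ih (by omega)]
      have h1 := hrec j (by omega)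
      have h2 : (den α (a + j + 2) : ℝ) = pq α (a + j + 1) * den α (a + j + 1) - den α (a + j) := by
        have : den α (a + j + 2) = pq α (a + j + 1) * den α (a + j + 1) - den α (a + j) := rfl
        rw [this]; push_cast; ring
      have e1 : a + (j + 1) + 1 = a + j + 2 := by ring
      have e2 : a + (j + 1) = a + j + 1 := by ring
      rw [e1, e2, h1, h2]; ring
  refine ⟨hW, ?_⟩
  intro j hj
  have hWi := hW j hj
  have hW'i := hW' j hj
  have hdet := det (α := α) (a + j)
  rw [← hWi, ← hW'i]
  linear_combination (-(y (a + j + 1))) * hdet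

lemma den_rec (k : ℕ) : (den α (k + 2) : ℝ) = pq α (k + 1) * den α (k + 1) - den α k := by
  have : den α (k + 2) = pq α (k + 1) * den α (k + 1) - den α k := rfl
  rw [this]; push_cast; ring

lemma digit_cast (R : ℕ → ℤ) (k : ℕ) :
    (digit α R k : ℝ) = R (k + 2) - pq α (k + 1) * R (k + 1) + R k := by
  unfold digit; push_cast; ring

section irr

variable (hα : Irrational α)
include hα

lemma th_nonneg (k : ℕ) : 0 ≤ th α k := (th_pos hα k).1.le

lemma th_anti : Antitone (th α) := antitone_nat_of_succ_le (fun k => (th_lt hα k).le)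

lemma den_mono : Monotone (den α) := monotone_nat_of_le_succ (fun k => by
    have := (den_inc hα k).2; omega)

lemma den_cast_mono {i j : ℕ} (h : i ≤ j) : (den α i : ℝ) ≤ den α j := by
  exact_mod_cast den_mono hα h

lemma den_cast_nonneg (k : ℕ) : (0 : ℝ) ≤ den α k := by exact_mod_cast (den_inc hα k).1

lemma den_ge (k : ℕ) : (k : ℤ) ≤ den α k := by
  induction k with
  | zero => exact (den_inc hα 0).1
  | succ k ih =>
    have := (den_inc hα k).2
    push_cast; omega

lemma den_strict {i j : ℕ} (h : i < j) : den α i < den α j := by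
  have h1 := (den_inc hα i).2
  have h2 := den_mono hα (show i + 1 ≤ j by omega)
  omega

/-- bounded solutions -/
lemma window_bound (y : ℕ → ℝ) (M : ℝ) (hM : ∀ k, |y k| ≤ M) (a s : ℕ)
    (hrec : ∀ i < s, y (a + i + 2) = pq α (a + i + 1) * y (a + i + 1) - y (a + i))
    (j : ℕ) (hj : j ≤ s) :
    |y (a + j + 1)| ≤ 2 * M * (den α (a + j + 1) * th α (a + s) +
      th α (a + j + 1) * den α (a + 1)) := by
  have hM0 : 0 ≤ M := (abs_nonneg _).trans (hM 0)
  obtain ⟨hW, hy⟩ := window_repr (α := α) y a s hrec
  have hWs := hW s le_rfl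
  have hyj := hy j hj
  set w : ℝ := y (a + 1) * th α a - y a * th α (a + 1) with hw
  set w' : ℝ := y (a + 1) * den α a - y a * den α (a + 1) with hw'
  have hw_abs : |w| ≤ 2 * M * th α (a + s) := by
    rw [← hWs]
    refine (abs_sub _ _).trans ?_
    rw [abs_mul, abs_mul, abs_of_nonneg (th_nonneg hα _), abs_of_nonneg (th_nonneg hα _)]
    have a1 : |y (a + s + 1)| * th α (a + s) ≤ M * th α (a + s) :=
      mul_le_mul_of_nonneg_right (hM _) (th_nonneg hα _)
    have a2 : |y (a + s)| * th α (a + s + 1) ≤ M * th α (a + s) :=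
      mul_le_mul (hM _) (th_anti hα (by omega)) (th_nonneg hα _) hM0
    linarith
  have hw'_abs : |w'| ≤ 2 * M * den α (a + 1) := by
    rw [hw']
    refine (abs_sub _ _).trans ?_
    rw [abs_mul, abs_mul, abs_of_nonneg (den_cast_nonneg hα _),
      abs_of_nonneg (den_cast_nonneg hα _)]
    have a1 : |y (a + 1)| * (den α a : ℝ) ≤ M * den α (a + 1) :=
      mul_le_mul (hM _) (den_cast_mono hα (by omega)) (den_cast_nonneg hα _) hM0
    have a2 : |y a| * (den α (a + 1) : ℝ) ≤ M * den α (a + 1) :=
      mul_le_mul_of_nonneg_right (hM _) (den_cast_nonneg hα _)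
    linarith
  rw [hyj]
  refine (abs_sub _ _).trans ?_
  rw [abs_mul, abs_mul, abs_of_nonneg (den_cast_nonneg hα _), abs_of_nonneg (th_nonneg hα _)]
  have f1 := mul_le_mul_of_nonneg_left hw_abs (den_cast_nonneg hα (a + j + 1))
  have f2 := mul_le_mul_of_nonneg_left hw'_abs (th_nonneg hα (a + j + 1))
  calc _ ≤ (den α (a + j + 1) : ℝ) * (2 * M * th α (a + s)) +
        th α (a + j + 1) * (2 * M * den α (a + 1)) := by linarith
    _ = _ := by ring

/-- growth of the shifted denominators along a run of period `l` -/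
lemma shift_growth (n l s : ℕ) (hrun : ∀ i < s, pq α (n + i + 1) = pq α (n + l + i + 1))
    (j : ℕ) (hj : j ≤ s) :
    (den α (n + j + 1 + l) : ℝ) ≤
      2 * (den α (n + j + 1) * (den α (n + l + 1) * th α n)) := by
  have hrec : ∀ i < s, (fun k => (den α (k + l) : ℝ)) (n + i + 2) =
      pq α (n + i + 1) * (fun k => (den α (k + l) : ℝ)) (n + i + 1) -
      (fun k => (den α (k + l) : ℝ)) (n + i) := by
    intro i hi
    have h1 : den α (n + i + l + 2) = pq α (n + i + l + 1) * den α (n + i + l + 1) -
      den α (n + i + l) := rfl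
    have e1 : n + i + 2 + l = n + i + l + 2 := by ring
    have e2 : n + i + 1 + l = n + i + l + 1 := by ring
    have e3 : n + l + i + 1 = n + i + l + 1 := by ring
    simp only [e1, e2]
    rw [h1, hrun i hi, e3]
    push_cast; ring
  obtain ⟨-, hy⟩ := window_repr (α := α) (fun k => (den α (k + l) : ℝ)) n s hrec
  have h := hy j hj
  have e : n + 1 + l = n + l + 1 := by ring
  rw [e] at h
  rw [h]
  have hQ1 := den_cast_nonneg hα (n + l)
  have hQ2 := den_cast_nonneg hα (n + l + 1)
  have hQ3 := den_cast_nonneg hα (n + j + 1)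
  have hQ4 := den_cast_nonneg hα n
  have hQ5 := den_cast_nonneg hα (n + 1)
  have ht1 := th_nonneg hα n
  have ht2 := th_nonneg hα (n + 1)
  have ht3 := th_nonneg hα (n + j + 1)
  have m1 : (den α (n + l) : ℝ) ≤ den α (n + l + 1) := den_cast_mono hα (by omega)
  have m2 : (den α (n + 1) : ℝ) ≤ den α (n + j + 1) := den_cast_mono hα (by omega)
  have m3 : th α (n + j + 1) ≤ th α n := th_anti hα (by omega)
  -- first term
  have f1 : (den α (n + j + 1) : ℝ) * (den α (n + l + 1) * th α n - den α (n + l) * th α (n + 1)) ≤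
      den α (n + j + 1) * (den α (n + l + 1) * th α n) := by
    apply mul_le_mul_of_nonneg_left _ hQ3
    have : 0 ≤ (den α (n + l) : ℝ) * th α (n + 1) := mul_nonneg hQ1 ht2
    linarith
  have f2 : -(th α (n + j + 1) * ((den α (n + l + 1) : ℝ) * den α n -
      den α (n + l) * den α (n + 1))) ≤ th α n * (den α (n + l + 1) * den α (n + j + 1)) := by
    have g1 : -((den α (n + l + 1) : ℝ) * den α n - den α (n + l) * den α (n + 1)) ≤
        den α (n + l + 1) * den α (n + j + 1) := by
      have : 0 ≤ (den α (n + l + 1) : ℝ) * den α n := mul_nonneg hQ2 hQ4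
      have h3 : (den α (n + l) : ℝ) * den α (n + 1) ≤ den α (n + l + 1) * den α (n + j + 1) :=
        mul_le_mul m1 m2 hQ5 hQ2
      linarith
    have g2 : 0 ≤ (den α (n + l + 1) : ℝ) * den α (n + j + 1) := mul_nonneg hQ2 hQ3
    calc -(th α (n + j + 1) * ((den α (n + l + 1) : ℝ) * den α n -
      den α (n + l) * den α (n + 1))) = th α (n + j + 1) * (-((den α (n + l + 1) : ℝ) * den α n -
      den α (n + l) * den α (n + 1))) := by ring
      _ ≤ th α (n + j + 1) * (den α (n + l + 1) * den α (n + j + 1)) :=
        mul_le_mul_of_nonneg_left g1 ht3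
      _ ≤ th α n * (den α (n + l + 1) * den α (n + j + 1)) :=
        mul_le_mul_of_nonneg_right m3 g2
  nlinarith [f1, f2]

end irr

/-- The twisted difference `V_{k+l} - τ V_k` satisfies the recurrence along a run. -/
lemma diff_rec {β : ℝ} {R : ℕ → ℤ} {τ : ℤ} {n l s : ℕ}
    (hp : ∀ i < s, pq α (n + i + 1) = pq α (n + l + i + 1) ∧
      digit α R (n + l + i) = τ * digit α R (n + i)) (j : ℕ) (hj : j < s) :
    (fun k => ((den α (k + l) : ℝ) * β - R (k + l)) - τ * ((den α k : ℝ) * β - R k)) (n + j + 2) =
      pq α (n + j + 1) *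
        (fun k => ((den α (k + l) : ℝ) * β - R (k + l)) - τ * ((den α k : ℝ) * β - R k)) (n + j + 1) -
      (fun k => ((den α (k + l) : ℝ) * β - R (k + l)) - τ * ((den α k : ℝ) * β - R k)) (n + j) := by
  obtain ⟨h1, h2⟩ := hp j hj
  have h3 := digit_cast (α := α) R (n + j)
  have h4 := digit_cast (α := α) R (n + l + j)
  have h5 := den_rec (α := α) (n + j)
  have h6 := den_rec (α := α) (n + l + j)
  have h7 : (digit α R (n + l + j) : ℝ) = τ * digit α R (n + j) := by exact_mod_cast h2
  have h8 : (pq α (n + l + j + 1) : ℝ) = pq α (n + j + 1) := by rw [h1]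
  rw [h8] at h4 h6
  have e1 : n + j + 2 + l = n + l + j + 2 := by ring
  have e2 : n + j + 1 + l = n + l + j + 1 := by ring
  have e3 : n + j + l = n + l + j := by ring
  simp only [e1, e2, e3]
  linear_combination (-(τ : ℝ)) * β * h5 + β * h6 - h7 - τ * h3 + h4

end Pool.Agent.H18.LC
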