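import Mathlib

/-!
# Combinatorics on words: low complexity forces large exponents

`blk x n i` is the block of length `n` of the infinite word `x` at position `i`, and `FI x n` the set
of the blocks of length `n` that occur infinitely often.
-/

set_option autoImplicit false

namespace Pool.Agent.H18.LC

open Set

variable {A : Type*}

/-- the block of length `n` of `x` at position `i` -/
def blk (x : ℕ → A) (n i : ℕ) : Fin n → A := fun j => x (i + j)

/-- the blocks of length `n` that occur infinitely often -/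
def FI (x : ℕ → A) (n : ℕ) : Set (Fin n → A) := {f | ∀ N, ∃ i, N ≤ i ∧ blk x n i = f}

lemma blk_eq_iff (x : ℕ → A) (n i j : ℕ) :
    blk x n i = blk x n j ↔ ∀ t < n, x (i + t) = x (j + t) := by
  constructor
  · intro h t ht
    exact congrFun h ⟨t, ht⟩
  · intro h
    funext t
    exact h t.1 t.2

lemma FI_subset (x : ℕ → A) (n : ℕ) : FI x n ⊆ Set.range (blk x n) := by
  intro f hf
  obtain ⟨i, -, hi⟩ := hf 0
  exact ⟨i, hi⟩

variable {x : ℕ → A}

lemma FI_finite (hfin : ∀ n, (Set.range (blk x n)).Finite) (n : ℕ) : (FI x n).Finite :=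
  (hfin n).subset (FI_subset x n)

lemma FI_thresh (hfin : ∀ n, (Set.range (blk x n)).Finite) (n : ℕ) :
    ∃ i0, ∀ i, i0 ≤ i → blk x n i ∈ FI x n := by
  have h : ∀ f ∈ Set.range (blk x n), ∃ N : ℕ, f ∈ FI x n ∨ ∀ i, N ≤ i → blk x n i ≠ f := by
    intro f _
    by_cases hf : f ∈ FI x n
    · exact ⟨0, Or.inl hf⟩
    · unfold FI at hf
      simp only [Set.mem_ofPred_eq, not_forall, not_exists, not_and] at hf
      obtain ⟨N, hN⟩ := hf
      exact ⟨N, Or.inr fun i hi => hN i hi⟩
  choose! N hN using h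
  obtain ⟨i0, hi0⟩ := ((hfin n).image N).bddAbove
  refine ⟨i0, fun i hi => ?_⟩
  have hr : blk x n i ∈ Set.range (blk x n) := ⟨i, rfl⟩
  rcases hN _ hr with h1 | h1
  · exact h1
  · exact absurd rfl (h1 i (le_trans (hi0 ⟨_, hr, rfl⟩) hi))

/-- the prefix of a block -/
def pre {n : ℕ} (f : Fin (n + 1) → A) : Fin n → A := fun j => f j.castSucc

lemma pre_blk (n i : ℕ) : pre (blk x (n + 1) i) = blk x n i := by
  funext j; rfl

lemma pre_mem {n : ℕ} {f : Fin (n + 1) → A} (hf : f ∈ FI x (n + 1)) : pre f ∈ FI x n := by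
  intro N
  obtain ⟨i, hi, h⟩ := hf N
  exact ⟨i, hi, by rw [← h, pre_blk]⟩

lemma exists_ext (hfin : ∀ n, (Set.range (blk x n)).Finite) {n : ℕ} {f : Fin n → A}
    (hf : f ∈ FI x n) : ∃ g ∈ FI x (n + 1), pre g = f := by
  obtain ⟨i0, hi0⟩ := FI_thresh hfin (n + 1)
  obtain ⟨i, hi, h⟩ := hf i0
  exact ⟨_, hi0 i hi, by rw [pre_blk, h]⟩

lemma blk_succ_eq {n i j : ℕ} : blk x (n + 1) i = blk x (n + 1) j ↔
    blk x n i = blk x n j ∧ x (i + n) = x (j + n) := by
  rw [blk_eq_iff, blk_eq_iff]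
  constructor
  · intro h
    exact ⟨fun t ht => h t (by omega), h n (by omega)⟩
  · rintro ⟨h1, h2⟩ t ht
    rcases Nat.lt_succ_iff_lt_or_eq.1 ht with h3 | h3
    · exact h1 t h3
    · rw [h3]; exact h2

/-- sliding the window -/
lemma blk_shift {n i j : ℕ} (h : blk x n i = blk x n j) (h2 : x (i + n) = x (j + n)) :
    blk x n (i + 1) = blk x n (j + 1) := by
  rw [blk_eq_iff] at h ⊢
  intro t ht
  have e1 : i + 1 + t = i + (t + 1) := by ring
  have e2 : j + 1 + t = j + (t + 1) := by ring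
  rw [e1, e2]
  rcases Nat.lt_or_ge (t + 1) n with h3 | h3
  · exact h (t + 1) h3
  · have : t + 1 = n := by omega
    rw [this]; exact h2

/-- The right special blocks. -/
lemma special (hfin : ∀ n, (Set.range (blk x n)).Finite) (n : ℕ) :
    ∃ D : Set (Fin (n + 1) → A), D ⊆ FI x (n + 1) ∧
      D.ncard + (FI x n).ncard = (FI x (n + 1)).ncard ∧
      (∀ g ∈ FI x (n + 1), ∀ g' ∈ FI x (n + 1), pre g = pre g' → g ∉ D → g' ∉ D → g = g') ∧
      (∀ f ∈ FI x n, ∃ g ∈ FI x (n + 1), g ∉ D ∧ pre g = f) := by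
  classical
  have h : ∀ f ∈ FI x n, ∃ g, g ∈ FI x (n + 1) ∧ pre g = f := fun f hf => by
    obtain ⟨g, hg, h⟩ := exists_ext hfin hf
    exact ⟨g, hg, h⟩
  have hne : ∀ f : Fin n → A, ∃ g : Fin (n + 1) → A, f ∈ FI x n → g ∈ FI x (n + 1) ∧ pre g = f := by
    intro f
    by_cases hf : f ∈ FI x n
    · obtain ⟨g, hg⟩ := h f hf
      exact ⟨g, fun _ => hg⟩
    · exact ⟨blk x (n + 1) 0, fun h' => absurd h' hf⟩
  choose σ hσ using hne
  have hinj : Set.InjOn σ (FI x n) := by
    intro f hf f' hf' he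
    rw [← (hσ f hf).2, ← (hσ f' hf').2, he]
  have hsub : σ '' FI x n ⊆ FI x (n + 1) := by
    rintro _ ⟨f, hf, rfl⟩
    exact (hσ f hf).1
  refine ⟨FI x (n + 1) \ (σ '' FI x n), Set.sdiff_subset, ?_, ?_, ?_⟩
  · have h1 := Set.ncard_sdiff_add_ncard_of_subset hsub (FI_finite hfin (n + 1))
    rw [hinj.ncard_image] at h1
    exact h1
  · intro g hg g' hg' he h1 h2
    have m1 : g ∈ σ '' FI x n := by
      by_contra hc
      exact h1 ⟨hg, hc⟩
    have m2 : g' ∈ σ '' FI x n := by
      by_contra hc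
      exact h2 ⟨hg', hc⟩
    obtain ⟨f, hf, rfl⟩ := m1
    obtain ⟨f', hf', rfl⟩ := m2
    rw [(hσ f hf).2, (hσ f' hf').2] at he
    rw [he]
  · intro f hf
    refine ⟨σ f, (hσ f hf).1, ?_, (hσ f hf).2⟩
    rintro ⟨-, hc⟩
    exact hc ⟨f, hf, rfl⟩

lemma pigeon (hfin : ∀ n, (Set.range (blk x n)).Finite) (n i : ℕ)
    (hi : ∀ j, i ≤ j → blk x n j ∈ FI x n) :
    ∃ i' j', i ≤ i' ∧ i' < j' ∧ j' ≤ i + (FI x n).ncard ∧ blk x n i' = blk x n j' := by
  classical
  have hF := FI_finite hfin n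
  obtain ⟨a, ha, b, hb, hab, he⟩ := Finset.exists_ne_map_eq_of_card_lt_of_maps_to
    (s := Finset.range ((FI x n).ncard + 1)) (t := hF.toFinset) (f := fun t => blk x n (i + t))
    (by rw [Finset.card_range, ← Set.ncard_eq_toFinset_card _ hF]; omega)
    (by intro t _; rw [Set.Finite.coe_toFinset]; exact hi _ (by omega))
  rw [Finset.mem_range] at ha hb
  rcases Nat.lt_or_gt_of_ne hab with h | h
  · exact ⟨i + a, i + b, by omega, by omega, by omega, he⟩
  · exact ⟨i + b, i + a, by omega, by omega, by omega, he.symm⟩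

/-- If the number of blocks does not increase, the word is eventually periodic. -/
lemma periodic_of_eq (hfin : ∀ n, (Set.range (blk x n)).Finite) (n : ℕ)
    (h : (FI x (n + 1)).ncard ≤ (FI x n).ncard) :
    ∃ i l, 1 ≤ l ∧ ∀ j, x (i + j) = x (i + l + j) := by
  obtain ⟨D, hD, hcard, hdet, -⟩ := special hfin n
  have hD0 : D = ∅ := by
    have h1 : D.ncard = 0 := by omega
    exact (Set.ncard_eq_zero ((FI_finite hfin (n + 1)).subset hD)).1 h1
  obtain ⟨i0, hi0⟩ := FI_thresh hfin (n + 1)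
  obtain ⟨i1, hi1⟩ := FI_thresh hfin n
  obtain ⟨i', j', h1, h2, h3, h4⟩ := pigeon hfin n (max i0 i1)
    (fun j hj => hi1 j (le_trans (le_max_right _ _) hj))
  have hstep : ∀ t, blk x n (i' + t) = blk x n (j' + t) := by
    intro t
    induction t with
    | zero => exact h4
    | succ t ih =>
      have g1 := hi0 (i' + t) (by have := le_max_left i0 i1; omega)
      have g2 := hi0 (j' + t) (by have := le_max_left i0 i1; omega)
      have := hdet _ g1 _ g2 (by rw [pre_blk, pre_blk, ih]) (by rw [hD0]; simp) (by rw [hD0]; simp)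
      exact blk_shift ih (blk_succ_eq.1 this).2
  have hlet : ∀ t, x (i' + n + t) = x (j' + n + t) := by
    intro t
    have g1 := hi0 (i' + t) (by have := le_max_left i0 i1; omega)
    have g2 := hi0 (j' + t) (by have := le_max_left i0 i1; omega)
    have := hdet _ g1 _ g2 (by rw [pre_blk, pre_blk, hstep t]) (by rw [hD0]; simp)
      (by rw [hD0]; simp)
    have := (blk_succ_eq.1 this).2
    have e1 : i' + n + t = i' + t + n := by ring
    have e2 : j' + n + t = j' + t + n := by ring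
    rw [e1, e2]; exact this
  refine ⟨i' + n, j' - i', by omega, fun j => ?_⟩
  have e : i' + n + (j' - i') + j = j' + n + j := by omega
  rw [e]; exact hlet j

end Pool.Agent.H18.LC
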