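import Pool.Agent.H18.LC.Words

/-!
# All exponents at most `3/2` force `p(n) ≥ 3n - K`
-/

set_option autoImplicit false

namespace Pool.Agent.H18.LC

open Set

variable {A : Type*} {x : ℕ → A}

/-- If the blocks at `i` and `j` agree and no special block is met, they keep agreeing. -/
lemma keep {n : ℕ} {D : Set (Fin (n + 1) → A)} {i0 : ℕ}
    (hi0 : ∀ i, i0 ≤ i → blk x (n + 1) i ∈ FI x (n + 1))
    (hdet : ∀ g ∈ FI x (n + 1), ∀ g' ∈ FI x (n + 1), pre g = pre g' → g ∉ D → g' ∉ D → g = g')
    {i j : ℕ} (hi : i0 ≤ i) (hj : i0 ≤ j) (h : blk x n i = blk x n j) (e : ℕ)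
    (hno : ∀ t < e, blk x n (i + t) ∉ pre '' D) : blk x n (i + e) = blk x n (j + e) := by
  induction e with
  | zero => exact h
  | succ e ih =>
    have h1 := ih (fun t ht => hno t (by omega))
    have h2 := hno e (by omega)
    have n1 : blk x (n + 1) (i + e) ∉ D := fun hc => h2 ⟨_, hc, pre_blk _ _⟩
    have n2 : blk x (n + 1) (j + e) ∉ D := fun hc => h2 ⟨_, hc, by rw [pre_blk, h1]⟩
    have := hdet _ (hi0 _ (by omega)) _ (hi0 _ (by omega)) (by rw [pre_blk, pre_blk, h1]) n1 n2
    exact blk_shift h1 (blk_succ_eq.1 this).2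

lemma agree_of_keep {n i j e : ℕ} (hn : 1 ≤ n) (h : ∀ t ≤ e, blk x n (i + t) = blk x n (j + t)) :
    ∀ t < n + e, x (i + t) = x (j + t) := by
  intro t ht
  rcases Nat.lt_or_ge t n with h1 | h1
  · exact (blk_eq_iff x n i j).1 (h 0 (by omega)) t h1
  · have h2 := h (t - (n - 1)) (by omega)
    have h3 := (blk_eq_iff x n _ _).1 h2 (n - 1) (by omega)
    have e1 : i + (t - (n - 1)) + (n - 1) = i + t := by omega
    have e2 : j + (t - (n - 1)) + (n - 1) = j + t := by omega
    rw [e1, e2] at h3
    exact h3

/-- The hypothesis that all exponents are at most `3/2`, up to `K`. -/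
def Exp32 (x : ℕ → A) (K : ℕ) : Prop :=
  ∀ i l s, 1 ≤ l → (∀ j < s, x (i + j) = x (i + l + j)) → 2 * s < l + K

lemma key32 (hfin : ∀ n, (Set.range (blk x n)).Finite) {K : ℕ} (H : Exp32 x K) {n : ℕ}
    (hn : 1 ≤ n) (hK : K ≤ 2 * n)
    (hP : (FI x (n + 1)).ncard ≤ (FI x n).ncard + 2) : 3 * n ≤ (FI x n).ncard + 2 * K + 1 := by
  classical
  obtain ⟨D, hD, hcard, hdet, -⟩ := special hfin n
  obtain ⟨i0', hi0'⟩ := FI_thresh hfin (n + 1)
  obtain ⟨i1, hi1⟩ := FI_thresh hfin n
  set i0 := max i0' i1 with hi0def
  have hi0 : ∀ i, i0 ≤ i → blk x (n + 1) i ∈ FI x (n + 1) := fun i hi => hi0' i (by omega)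
  have hDfin : D.Finite := (FI_finite hfin (n + 1)).subset hD
  have hRfin : (pre '' D).Finite := hDfin.image _
  have hR : (pre '' D).ncard ≤ 2 := (Set.ncard_image_le hDfin).trans (by omega)
  -- return times of blocks of length n
  have hret : ∀ i j, i < j → blk x n i = blk x n j → 2 * n < j - i + K := by
    intro i j hij h
    apply H i (j - i) n (by omega)
    intro t ht
    have e : i + (j - i) + t = j + t := by omega
    rw [e]
    exact (blk_eq_iff x n i j).1 h t ht
  set w := (2 * n - K) / 2 with hw
  -- a window without special blocks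
  have hgap : ∃ i, i0 ≤ i ∧ ∀ t < w, blk x n (i + t) ∉ pre '' D := by
    by_contra hc
    push Not at hc
    obtain ⟨t1, ht1, h1⟩ := hc i0 le_rfl
    obtain ⟨t2, ht2, h2⟩ := hc (i0 + t1 + 1) (by omega)
    obtain ⟨t3, ht3, h3⟩ := hc (i0 + t1 + 1 + t2 + 1) (by omega)
    set p1 := i0 + t1
    set p2 := p1 + 1 + t2
    set p3 := p2 + 1 + t3
    have n12 : blk x n p1 ≠ blk x n p2 := by
      intro he
      have := hret p1 p2 (by omega) he
      omega
    have n13 : blk x n p1 ≠ blk x n p3 := by
      intro he
      have := hret p1 p3 (by omega) he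
      omega
    have n23 : blk x n p2 ≠ blk x n p3 := by
      intro he
      have := hret p2 p3 (by omega) he
      omega
    have h3set : ({blk x n p1, blk x n p2, blk x n p3} : Set (Fin n → A)) ⊆ pre '' D := by
      intro f hf
      simp only [Set.mem_insert_iff, Set.mem_singleton_iff] at hf
      rcases hf with rfl | rfl | rfl
      · exact h1
      · exact h2
      · exact h3
    have h3card : ({blk x n p1, blk x n p2, blk x n p3} : Set (Fin n → A)).ncard = 3 := by
      rw [Set.ncard_eq_three]
      exact ⟨_, _, _, n12, n13, n23, rfl⟩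
    have := Set.ncard_le_ncard h3set hRfin
    omega
  obtain ⟨i, hi, hno⟩ := hgap
  obtain ⟨i', j', h1, h2, h3, h4⟩ := pigeon hfin n i (fun j hj => hi1 j (by omega))
  have hex : ∃ e, blk x n (i' + e) ∈ pre '' D := by
    by_contra hc
    push Not at hc
    have hall : ∀ e, blk x n (i' + e) = blk x n (j' + e) := fun e =>
      keep hi0 hdet (by omega) (by omega) h4 e (fun t _ => hc t)
    have := H i' (j' - i') (j' + K) (by omega) (by
      intro t ht
      have e : i' + (j' - i') + t = j' + t := by omega
      rw [e]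
      exact agree_of_keep (e := t) hn (fun s _ => hall s) t (by omega))
    omega
  set e := Nat.find hex with he
  have hemem := Nat.find_spec hex
  rw [← he] at hemem
  have hemin : ∀ t < e, blk x n (i' + t) ∉ pre '' D := fun t ht => Nat.find_min hex ht
  have hge : i + w ≤ i' + e := by
    by_contra hc
    push Not at hc
    have := hno (i' + e - i) (by omega)
    have e2 : i + (i' + e - i) = i' + e := by omega
    rw [e2] at this
    exact this hemem
  have hs := H i' (j' - i') (n + e) (by omega) (by
    intro t ht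
    have e1 : i' + (j' - i') + t = j' + t := by omega
    rw [e1]
    refine agree_of_keep (e := e) hn (fun s hs => ?_) t ht
    exact keep hi0 hdet (by omega) (by omega) h4 s (fun t ht => hemin t (by omega)))
  omega

/-- **All exponents at most `3/2` force `p(n) ≥ 3n - K'`.** -/
theorem exp32 (hfin : ∀ n, (Set.range (blk x n)).Finite) {K : ℕ} (H : Exp32 x K) (n : ℕ) :
    3 * n ≤ (FI x n).ncard + (2 * K + 3) := by
  have hstep : ∀ n, (FI x n).ncard < (FI x (n + 1)).ncard := by
    intro n
    by_contra hc
    push Not at hc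
    obtain ⟨i, l, hl, h⟩ := periodic_of_eq hfin n hc
    have := H i l (l + K) hl (fun j _ => h j)
    omega
  induction n with
  | zero => omega
  | succ n ih =>
    have h1 := hstep n
    rcases Nat.lt_or_ge ((FI x n).ncard + 2) (FI x (n + 1)).ncard with h2 | h2
    · omega
    · rcases Nat.eq_zero_or_pos n with hn | hn
      · omega
      · rcases Nat.lt_or_ge (2 * n) K with h3 | h3
        · omega
        · have := key32 hfin H hn h3 h2
          omega

end Pool.Agent.H18.LC
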