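import Pool.Agent.H18.LC.Words2

/-!
# `2n - p(n)` unbounded forces exponents larger than `3`
-/

set_option autoImplicit false

namespace Pool.Agent.H18.LC

open Set

variable {A : Type*} {x : ℕ → A}

/-- choice of a length with a single special block -/
lemma choose_length (hstep : ∀ n, (FI x n).ncard < (FI x (n + 1)).ncard)
    (hP : ∀ G, ∃ n, (FI x n).ncard + G ≤ 2 * n) (G : ℕ) :
    ∃ m, (FI x (m + 1)).ncard = (FI x m).ncard + 1 ∧ (FI x m).ncard + G ≤ 2 * m := by
  classical
  have hex := hP (G + 1)
  have hspec := Nat.find_spec hex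
  have hmin : ∀ m < Nat.find hex, ¬ ((FI x m).ncard + (G + 1) ≤ 2 * m) :=
    fun m hm => Nat.find_min hex hm
  have hn0 : Nat.find hex ≠ 0 := by
    intro h0
    rw [h0] at hspec
    omega
  obtain ⟨m, hm⟩ : ∃ m, Nat.find hex = m + 1 := ⟨Nat.find hex - 1, by omega⟩
  rw [hm] at hspec
  have h1 := hmin m (by omega)
  have h2 := hstep m
  refine ⟨m, by omega, by omega⟩

/-- The structure at a length with a single special block: `pos v` is the position of the `v`-th
occurrence of a word of length `n'`, and the gaps are `gap true` or `gap false`. -/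
structure Loops (x : ℕ → A) (n' : ℕ) (gap : Bool → ℕ) where
  pos : ℕ → ℕ
  g : ℕ → Bool
  hgap : ∀ c, 1 ≤ gap c
  hpos : ∀ v, pos (v + 1) = pos v + gap (g v)
  hagree : ∀ u v, ∀ j < n', x (pos u + j) = x (pos v + j)
  hloop : ∀ u v, g u = g v → ∀ j < n' + gap (g u), x (pos u + j) = x (pos v + j)

namespace Loops

variable {n' : ℕ} {gap : Bool → ℕ}

lemma run (S : Loops x n' gap) (u v h : ℕ) (hg : ∀ i < h, S.g (u + i) = S.g (v + i)) :
    S.pos (u + h) + S.pos v = S.pos (v + h) + S.pos u ∧
      ∀ j, S.pos u + j < S.pos (u + h) + n' → x (S.pos u + j) = x (S.pos v + j) := by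
  induction h with
  | zero =>
    refine ⟨by simp; omega, fun j hj => S.hagree u v j (by simp at hj; omega)⟩
  | succ h ih =>
    obtain ⟨h1, h2⟩ := ih (fun i hi => hg i (by omega))
    have hgh := hg h (by omega)
    have p1 := S.hpos (u + h)
    have p2 := S.hpos (v + h)
    rw [← hgh] at p2
    have e1 : u + (h + 1) = u + h + 1 := by ring
    have e2 : v + (h + 1) = v + h + 1 := by ring
    rw [e1, e2, p1, p2]
    refine ⟨by omega, fun j hj => ?_⟩
    rcases Nat.lt_or_ge (S.pos u + j) (S.pos (u + h)) with h3 | h3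
    · exact h2 j (by omega)
    · have := S.hloop (u + h) (v + h) hgh (S.pos u + j - S.pos (u + h)) (by omega)
      have e3 : S.pos (u + h) + (S.pos u + j - S.pos (u + h)) = S.pos u + j := by omega
      have e4 : S.pos (v + h) + (S.pos u + j - S.pos (u + h)) = S.pos v + j := by omega
      rw [e3, e4] at this
      exact this

lemma pos_lt (S : Loops x n' gap) (u q : ℕ) (hq : 1 ≤ q) : S.pos u < S.pos (u + q) := by
  induction q with
  | zero => omega
  | succ q ih =>
    have h1 := S.hpos (u + q)
    have h2 := S.hgap (S.g (u + q))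
    have e : u + (q + 1) = u + q + 1 := by ring
    rw [e, h1]
    rcases Nat.eq_zero_or_pos q with h | h
    · subst h
      simp only [Nat.add_zero] at h2 ⊢
      omega
    · have := ih h; omega

/-- existence of a long run -/
def Succ (x : ℕ → A) (L : ℕ) : Prop :=
  ∃ i l s, 1 ≤ l ∧ 2 * l + L ≤ s ∧ ∀ j < s, x (i + j) = x (i + l + j)

lemma succ_of_pattern (S : Loops x n' gap) {L : ℕ} (u q h : ℕ) (hq : 1 ≤ q)
    (hg : ∀ i < h, S.g (u + i) = S.g (u + q + i))
    (hlen : 2 * (S.pos (u + q) - S.pos u) + L ≤ S.pos (u + h) - S.pos u + n') : Succ x L := by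
  obtain ⟨-, h2⟩ := S.run u (u + q) h hg
  have h3 := S.pos_lt u q hq
  refine ⟨S.pos u, S.pos (u + q) - S.pos u, S.pos (u + h) - S.pos u + n', by omega, hlen, ?_⟩
  intro j hj
  have e : S.pos u + (S.pos (u + q) - S.pos u) + j = S.pos (u + q) + j := by omega
  rw [e]
  apply h2 j
  rcases Nat.eq_zero_or_pos h with h0 | h0
  · subst h0; simp at hj ⊢; omega
  · have := S.pos_lt u h h0
    omega

/-- The main analysis: one of the two gaps is short. -/
lemma main (S : Loops x n' gap) {L : ℕ} (hL : L ≤ n') (c : Bool) (hc : gap c + L ≤ n') :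
    Succ x L := by
  by_contra hno
  have P := S.hpos
  -- two consecutive short gaps
  have c1 : ∀ v, S.g v = c → S.g (v + 1) = !c := by
    intro v h1
    by_contra h2
    have h2 : S.g (v + 1) = c := by
      cases c <;> cases h3 : S.g (v + 1) <;> simp_all
    apply hno
    apply S.succ_of_pattern v 1 1 le_rfl
    · intro i hi
      have : i = 0 := by omega
      subst this
      simp [h1, h2]
    · have := P v
      rw [h1] at this
      omega
  -- three consecutive long gaps
  have c2 : ∀ v, S.g v = (!c) → S.g (v + 1) = (!c) → S.g (v + 2) = c := by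
    intro v h1 h2
    by_contra h3
    have h3 : S.g (v + 2) = !c := by
      cases c <;> cases h4 : S.g (v + 2) <;> simp_all
    apply hno
    apply S.succ_of_pattern v 1 2 le_rfl
    · intro i hi
      have : i = 0 ∨ i = 1 := by omega
      rcases this with rfl | rfl
      · simp [h1, h2]
      · rw [show v + 1 + 1 = v + 2 by ring, h2, h3]
    · have p1 := P v
      have p2 := P (v + 1)
      rw [h1] at p1
      rw [h2] at p2
      rw [show v + 1 + 1 = v + 2 by ring] at p2
      omega
  -- the pattern long short long short long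
  have c3 : ∀ v, S.g v = (!c) → S.g (v + 1) = c → S.g (v + 2) = (!c) → S.g (v + 3) = (!c) := by
    intro v h1 h2 h3
    by_contra h4
    have h4 : S.g (v + 3) = c := by
      cases c <;> cases h5 : S.g (v + 3) <;> simp_all
    have h5 := c1 (v + 3) h4
    apply hno
    apply S.succ_of_pattern v 2 3 (by norm_num)
    · intro i hi
      have : i = 0 ∨ i = 1 ∨ i = 2 := by omega
      rcases this with rfl | rfl | rfl
      · simp [h1, h3]
      · rw [show v + 2 + 1 = v + 3 by ring, h2, h4]
      · rw [show v + 2 + 2 = v + 3 + 1 by ring, h3, h5]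
    · have p1 := P v
      have p2 := P (v + 1)
      have p3 := P (v + 2)
      rw [h1] at p1
      rw [h2, show v + 1 + 1 = v + 2 by ring] at p2
      rw [h3, show v + 2 + 1 = v + 3 by ring] at p3
      omega
  -- from a short gap (not the first) the next short gap comes exactly three later
  have c4 : ∀ v, S.g (v + 1) = c → S.g (v + 2) = (!c) ∧ S.g (v + 3) = (!c) ∧ S.g (v + 4) = c := by
    intro v h1
    have h0 : S.g v = !c := by
      by_contra h
      have h : S.g v = c := by
        cases c <;> cases h5 : S.g v <;> simp_all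
      have := c1 v h
      rw [h1] at this
      cases c <;> simp at this
    have h2 := c1 (v + 1) h1
    rw [show v + 1 + 1 = v + 2 by ring] at h2
    have h3 := c3 v h0 h1 h2
    exact ⟨h2, h3, c2 (v + 2) h2 h3⟩
  obtain ⟨v, hv⟩ : ∃ v, S.g (v + 1) = c := by
    by_contra h
    push Not at h
    have h' : ∀ v, S.g (v + 1) = !c := by
      intro v
      have := h v
      cases c <;> cases h5 : S.g (v + 1) <;> simp_all
    have := c2 1 (h' 0) (h' 1)
    have h2 := h' 2
    rw [show (2 : ℕ) + 1 = 1 + 2 by norm_num] at h2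
    rw [this] at h2
    cases c <;> simp at h2
  obtain ⟨a1, a2, a3⟩ := c4 v hv
  obtain ⟨b1, b2, b3⟩ := c4 (v + 3) (by rw [show v + 3 + 1 = v + 4 by ring]; exact a3)
  obtain ⟨d1, d2, d3⟩ := c4 (v + 6) (by rw [show v + 6 + 1 = v + 3 + 4 by ring]; exact b3)
  simp only [Nat.add_assoc, Nat.reduceAdd] at a1 a2 a3 b1 b2 b3 d1 d2 d3
  apply hno
  apply S.succ_of_pattern (v + 1) 3 6 (by norm_num)
  · intro i hi
    have : i = 0 ∨ i = 1 ∨ i = 2 ∨ i = 3 ∨ i = 4 ∨ i = 5 := by omega
    rcases this with rfl | rfl | rfl | rfl | rfl | rfl <;>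
      simp only [Nat.add_assoc, Nat.reduceAdd, hv, a1, a2, a3, b1, b2, b3, d1, d2, d3]
  · have p1 := P (v + 1)
    have p2 := P (v + 2)
    have p3 := P (v + 3)
    have p4 := P (v + 4)
    have p5 := P (v + 5)
    have p6 := P (v + 6)
    simp only [Nat.add_assoc, Nat.reduceAdd, hv, a1, a2, a3, b1, b2, b3, d1, d2, d3]
      at p1 p2 p3 p4 p5 p6 ⊢
    omega

end Loops

end Pool.Agent.H18.LC
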