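import Pool.Agent.H18.LC.Words3

set_option autoImplicit false

namespace Pool.Agent.H18.LC

open Set

variable {A : Type*} {x : ℕ → A}

/-- The data at a length `m` with a single special block. -/
structure OneSpecial (x : ℕ → A) (m i0 : ℕ) (g1 g2 : Fin (m + 1) → A) : Prop where
  hm : ∀ i, i0 ≤ i → blk x m i ∈ FI x m
  hm1 : ∀ i, i0 ≤ i → blk x (m + 1) i ∈ FI x (m + 1)
  h1 : g1 ∈ FI x (m + 1)
  h2 : g2 ∈ FI x (m + 1)
  hne : g1 ≠ g2
  hpre : pre g1 = pre g2
  hdet : ∀ g ∈ FI x (m + 1), ∀ g' ∈ FI x (m + 1), pre g = pre g' → g ∉ ({g1} : Set _) →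
    g' ∉ ({g1} : Set _) → g = g'

lemma exists_oneSpecial (hfin : ∀ n, (Set.range (blk x n)).Finite) {m : ℕ}
    (h : (FI x (m + 1)).ncard = (FI x m).ncard + 1) :
    ∃ i0 g1 g2, OneSpecial x m i0 g1 g2 := by
  obtain ⟨D, hD, hcard, hdet, hex⟩ := special hfin m
  obtain ⟨i0, hi0⟩ := FI_thresh hfin (m + 1)
  obtain ⟨i1, hi1⟩ := FI_thresh hfin m
  have hD1 : D.ncard = 1 := by omega
  obtain ⟨g1, rfl⟩ := Set.ncard_eq_one.1 hD1
  have hg1 : g1 ∈ FI x (m + 1) := hD (by simp)
  obtain ⟨g2, hg2, hg2D, hpre⟩ := hex (pre g1) (pre_mem hg1)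
  refine ⟨max i0 i1, g1, g2, ⟨fun i hi => hi1 i (by omega), fun i hi => hi0 i (by omega), hg1, hg2,
    ?_, hpre.symm, hdet⟩⟩
  rintro rfl
  exact hg2D (by simp)

namespace OneSpecial

variable {m i0 : ℕ} {g1 g2 : Fin (m + 1) → A}

/-- extension at a visit -/
lemma ext (S : OneSpecial x m i0 g1 g2) {i : ℕ} (hi : i0 ≤ i) (h : blk x m i = pre g1) :
    blk x (m + 1) i = g1 ∨ blk x (m + 1) i = g2 := by
  by_cases h1 : blk x (m + 1) i = g1
  · exact Or.inl h1
  · right
    refine S.hdet _ (S.hm1 i hi) _ S.h2 ?_ h1 ?_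
    · rw [pre_blk, h, S.hpre]
    · intro hc
      exact S.hne (by simpa using hc.symm)

/-- agreement persists up to and including the first visit -/
lemma keep' (S : OneSpecial x m i0 g1 g2) {i j : ℕ} (hi : i0 ≤ i) (hj : i0 ≤ j)
    (h : blk x m i = blk x m j) (e : ℕ) (hno : ∀ t < e, blk x m (i + t) ≠ pre g1) :
    blk x m (i + e) = blk x m (j + e) := by
  refine keep S.hm1 S.hdet hi hj h e ?_
  intro t ht hc
  obtain ⟨y, hy, hy'⟩ := hc
  rw [Set.mem_singleton_iff] at hy
  rw [hy] at hy'
  exact hno t ht hy'.symm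

lemma exists_next (S : OneSpecial x m i0 g1 g2) (i : ℕ) :
    ∃ t, 1 ≤ t ∧ blk x m (i + t) = pre g1 := by
  obtain ⟨j, hj, h⟩ := pre_mem S.h1 (i + 1)
  refine ⟨j - i, by omega, ?_⟩
  rw [show i + (j - i) = j by omega]
  exact h

open Classical in
/-- the gap from `i` to the next visit -/
noncomputable def nxt (S : OneSpecial x m i0 g1 g2) (i : ℕ) : ℕ := Nat.find (S.exists_next i)

lemma nxt_spec (S : OneSpecial x m i0 g1 g2) (i : ℕ) :
    1 ≤ S.nxt i ∧ blk x m (i + S.nxt i) = pre g1 := by
  classical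
  exact Nat.find_spec (S.exists_next i)

lemma nxt_min (S : OneSpecial x m i0 g1 g2) (i t : ℕ) (h1 : 1 ≤ t) (h2 : t < S.nxt i) :
    blk x m (i + t) ≠ pre g1 := by
  classical
  intro h
  exact Nat.find_min (S.exists_next i) h2 ⟨h1, h⟩

/-- two visits with the same extension -/
lemma same_loop (S : OneSpecial x m i0 g1 g2) {i j : ℕ} (hi : i0 ≤ i) (hj : i0 ≤ j)
    (h : blk x (m + 1) i = blk x (m + 1) j) :
    S.nxt i = S.nxt j ∧ ∀ e ≤ S.nxt i, blk x m (i + e) = blk x m (j + e) := by
  have h0 := blk_succ_eq.1 h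
  have h1 : blk x m (i + 1) = blk x m (j + 1) := blk_shift h0.1 h0.2
  have key : ∀ e ≤ S.nxt i, blk x m (i + e) = blk x m (j + e) := by
    intro e he
    rcases Nat.eq_zero_or_pos e with h2 | h2
    · subst h2; exact h0.1
    · have := S.keep' (by omega) (by omega) h1 (e - 1) (fun t ht => by
        rw [show i + 1 + t = i + (t + 1) by ring]
        exact S.nxt_min i (t + 1) (by omega) (by omega))
      rw [show i + 1 + (e - 1) = i + e by omega, show j + 1 + (e - 1) = j + e by omega] at this
      exact this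
  refine ⟨?_, key⟩
  have s1 := S.nxt_spec i
  have s2 := S.nxt_spec j
  apply le_antisymm
  · by_contra hc
    push Not at hc
    have := S.nxt_min i (S.nxt j) s2.1 hc
    rw [key _ hc.le] at this
    exact this s2.2
  · by_contra hc
    push Not at hc
    have := S.nxt_min j (S.nxt i) s1.1 hc
    rw [← key _ le_rfl] at this
    exact this s1.2

/-- time to the next visit is determined by the block (positions at a visit count as time `0`) -/
lemma time_unique (S : OneSpecial x m i0 g1 g2) {i j τ σ : ℕ} (hi : i0 ≤ i) (hj : i0 ≤ j)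
    (h : blk x m i = blk x m j) (hτ : blk x m (i + τ) = pre g1)
    (hτ' : ∀ t < τ, blk x m (i + t) ≠ pre g1) (hσ : blk x m (j + σ) = pre g1)
    (hσ' : ∀ t < σ, blk x m (j + t) ≠ pre g1) : τ = σ := by
  rcases Nat.lt_trichotomy τ σ with h1 | h1 | h1
  · have := S.keep' hi hj h τ hτ'
    exact absurd (this ▸ hτ) (hσ' τ h1)
  · exact h1
  · have := S.keep' hj hi h.symm σ hσ'
    exact absurd (this ▸ hσ) (hτ' σ h1)

/-- Counting the blocks on the two loops. -/
lemma count (S : OneSpecial x m i0 g1 g2) (hfin : (FI x m).Finite) {i j : ℕ}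
    (hi : i0 ≤ i) (hj : i0 ≤ j) :
    ∃ u, 1 ≤ u ∧ S.nxt i + S.nxt j ≤ (FI x m).ncard + u ∧
      ∀ t < u, t < S.nxt i ∧ t < S.nxt j ∧
        blk x m (i + S.nxt i - t) = blk x m (j + S.nxt j - t) := by
  classical
  set a := S.nxt i with ha
  set b := S.nxt j with hb
  have sa := S.nxt_spec i
  have sb := S.nxt_spec j
  rw [← ha] at sa
  rw [← hb] at sb
  have hex : ∃ t, ¬ (t < a ∧ t < b ∧ blk x m (i + a - t) = blk x m (j + b - t)) :=
    ⟨a, by simp⟩
  have hu := Nat.find_spec hex
  have hmin : ∀ t < Nat.find hex, t < a ∧ t < b ∧ blk x m (i + a - t) = blk x m (j + b - t) := by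
    intro t ht
    have := Nat.find_min hex ht
    push Not at this
    exact this
  set u := Nat.find hex with hudef
  have hu1 : 1 ≤ u := by
    by_contra hc
    have h0 : u = 0 := by omega
    rw [h0] at hu
    apply hu
    refine ⟨by omega, by omega, ?_⟩
    simp only [Nat.sub_zero]
    rw [sa.2, sb.2]
  refine ⟨u, hu1, ?_, hmin⟩
  -- time facts
  have ti : ∀ t < a, blk x m (i + a - t + t) = pre g1 ∧
      ∀ s < t, blk x m (i + a - t + s) ≠ pre g1 := by
    intro t ht
    refine ⟨by rw [show i + a - t + t = i + a by omega]; exact sa.2, fun s hs => ?_⟩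
    rw [show i + a - t + s = i + (a - t + s) by omega]
    exact S.nxt_min i _ (by omega) (by omega)
  have tj : ∀ t < b, blk x m (j + b - t + t) = pre g1 ∧
      ∀ s < t, blk x m (j + b - t + s) ≠ pre g1 := by
    intro t ht
    refine ⟨by rw [show j + b - t + t = j + b by omega]; exact sb.2, fun s hs => ?_⟩
    rw [show j + b - t + s = j + (b - t + s) by omega]
    exact S.nxt_min j _ (by omega) (by omega)
  let F : Finset (Fin m → A) := (Finset.range a).image (fun t => blk x m (i + a - t))
  let H : Finset (Fin m → A) := (Finset.Ico u b).image (fun t => blk x m (j + b - t))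
  have cF : F.card = a := by
    rw [Finset.card_image_of_injOn, Finset.card_range]
    intro t ht s hs he
    simp only [Finset.coe_range, Set.mem_Iio] at ht hs
    have := S.time_unique (by omega) (by omega) he (ti t ht).1 (ti t ht).2 (ti s hs).1 (ti s hs).2
    exact this
  have cH : H.card = b - u := by
    rw [Finset.card_image_of_injOn, Nat.card_Ico]
    intro t ht s hs he
    simp only [Finset.coe_Ico, Set.mem_Ico] at ht hs
    exact S.time_unique (by omega) (by omega) he (tj t ht.2).1 (tj t ht.2).2 (tj s hs.2).1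
      (tj s hs.2).2
  have hdisj : Disjoint F H := by
    rw [Finset.disjoint_left]
    intro f hf hf'
    simp only [F, H, Finset.mem_image, Finset.mem_range, Finset.mem_Ico] at hf hf'
    obtain ⟨t, ht, rfl⟩ := hf
    obtain ⟨s, hs, he⟩ := hf'
    have hts : s = t := S.time_unique (by omega) (by omega) he (tj s hs.2).1 (tj s hs.2).2
      (ti t ht).1 (ti t ht).2
    subst hts
    apply hu
    refine ⟨by omega, by omega, ?_⟩
    have := S.keep' (by omega) (by omega) he.symm (s - u) (fun t' ht' => (ti s ht).2 t' (by omega))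
    rw [show i + a - s + (s - u) = i + a - u by omega,
      show j + b - s + (s - u) = j + b - u by omega] at this
    exact this
  have hsub : ((F ∪ H : Finset (Fin m → A)) : Set (Fin m → A)) ⊆ FI x m := by
    intro f hf
    simp only [F, H, Finset.coe_union, Finset.coe_image, Set.mem_union, Set.mem_image,
      Finset.coe_range, Set.mem_Iio, Finset.coe_Ico, Set.mem_Ico] at hf
    rcases hf with ⟨t, ht, rfl⟩ | ⟨t, ht, rfl⟩
    · exact S.hm _ (by omega)
    · exact S.hm _ (by omega)
  have hc := Set.ncard_le_ncard hsub hfin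
  rw [Set.ncard_coe_finset, Finset.card_union_of_disjoint hdisj, cF, cH] at hc
  omega

/-- the positions of the visits -/
noncomputable def vis (S : OneSpecial x m i0 g1 g2) (i : ℕ) : ℕ → ℕ
  | 0 => i
  | v + 1 => vis S i v + S.nxt (vis S i v)

lemma vis_ge (S : OneSpecial x m i0 g1 g2) (i v : ℕ) : i ≤ S.vis i v := by
  induction v with
  | zero => exact le_rfl
  | succ v ih => unfold vis; omega

lemma vis_mem (S : OneSpecial x m i0 g1 g2) (i v : ℕ) (h : blk x m i = pre g1) :
    blk x m (S.vis i v) = pre g1 := by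
  induction v with
  | zero => exact h
  | succ v ih => exact (S.nxt_spec _).2

end OneSpecial

open Classical in
/-- Construction of the loops. -/
theorem exists_loops (hfin : ∀ n, (Set.range (blk x n)).Finite) {m : ℕ} (hm1 : 1 ≤ m)
    (h : (FI x (m + 1)).ncard = (FI x m).ncard + 1) :
    ∃ (t : ℕ) (gap : Bool → ℕ) (_ : Loops x (m + t) gap),
      gap true + gap false ≤ (FI x m).ncard + t + 1 := by
  obtain ⟨i0, g1, g2, S⟩ := exists_oneSpecial hfin h
  obtain ⟨j1, hj1, e1⟩ := S.h1 i0
  obtain ⟨j2, hj2, e2⟩ := S.h2 i0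
  obtain ⟨u, hu1, hcount, hagr⟩ := S.count (FI_finite hfin m) hj1 hj2
  let rep : Bool → ℕ := fun c => if c then j1 else j2
  let ext : Bool → (Fin (m + 1) → A) := fun c => if c then g1 else g2
  have hrep : ∀ c, i0 ≤ rep c := by intro c; cases c <;> simp [rep, hj1, hj2]
  have hrepe : ∀ c, blk x (m + 1) (rep c) = ext c := by
    intro c; cases c <;> simp [rep, ext, e1, e2]
  let gap : Bool → ℕ := fun c => S.nxt (rep c)
  have hj1r : blk x m j1 = pre g1 := by rw [← pre_blk, e1]
  let p : ℕ → ℕ := S.vis j1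
  have hp0 : ∀ v, i0 ≤ p v := fun v => le_trans hj1 (S.vis_ge j1 v)
  have hpr : ∀ v, blk x m (p v) = pre g1 := fun v => S.vis_mem j1 v hj1r
  let ty : ℕ → Bool := fun v => decide (blk x (m + 1) (p v) = g1)
  have hty : ∀ v, blk x (m + 1) (p v) = ext (ty v) := by
    intro v
    rcases S.ext (hp0 v) (hpr v) with h1 | h1
    · have : ty v = true := by simp [ty, h1]
      rw [this, h1]; simp [ext]
    · have : ty v = false := by
        simp only [ty, decide_eq_false_iff_not, h1]
        exact fun hc => S.hne hc.symm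
      rw [this, h1]; simp [ext]
  -- the loop at a visit
  have hl : ∀ v, S.nxt (p v) = gap (ty v) ∧
      ∀ e ≤ gap (ty v), blk x m (p v + e) = blk x m (rep (ty v) + e) := by
    intro v
    have := S.same_loop (hp0 v) (hrep (ty v)) (by rw [hty v, hrepe])
    refine ⟨this.1, fun e he => this.2 e (by rw [this.1]; exact he)⟩
  have hp1 : ∀ v, p (v + 1) = p v + gap (ty v) := by
    intro v
    have : p (v + 1) = p v + S.nxt (p v) := rfl
    rw [this, (hl v).1]
  -- left agreement
  have hcom : ∀ c, ∀ s < u, s < gap c ∧ blk x m (rep c + gap c - s) = blk x m (j1 + S.nxt j1 - s) := by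
    intro c s hs
    obtain ⟨h1, h2, h3⟩ := hagr s hs
    cases c
    · refine ⟨by simpa [gap, rep] using h2, ?_⟩
      simp only [gap, rep]
      exact h3.symm
    · refine ⟨by simpa [gap, rep] using h1, ?_⟩
      simp [gap, rep]
  have hleft : ∀ v, ∀ s < u, s < gap (ty v) ∧
      blk x m (p (v + 1) - s) = blk x m (j1 + S.nxt j1 - s) := by
    intro v s hs
    obtain ⟨h1, h2⟩ := hcom (ty v) s hs
    refine ⟨h1, ?_⟩
    rw [← h2, hp1 v]
    have := (hl v).2 (gap (ty v) - s) (by omega)
    rw [show p v + (gap (ty v) - s) = p v + gap (ty v) - s by omega,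
      show rep (ty v) + (gap (ty v) - s) = rep (ty v) + gap (ty v) - s by omega] at this
    exact this
  have hagree : ∀ v w, ∀ j < m + (u - 1), x (p (v + 1) - (u - 1) + j) = x (p (w + 1) - (u - 1) + j) := by
    intro v w
    apply agree_of_keep hm1
    intro s hs
    have a1 := hleft v (u - 1 - s) (by omega)
    have a2 := hleft w (u - 1 - s) (by omega)
    have b1 := hp1 v
    have b2 := hp1 w
    have c1 := (hleft v (u - 1) (by omega)).1
    have c2 := (hleft w (u - 1) (by omega)).1
    rw [show p (v + 1) - (u - 1) + s = p (v + 1) - (u - 1 - s) by omega,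
      show p (w + 1) - (u - 1) + s = p (w + 1) - (u - 1 - s) by omega, a1.2, a2.2]
  refine ⟨u - 1, gap, ⟨fun v => p (v + 1) - (u - 1), fun v => ty (v + 1), ?_, ?_, ?_, ?_⟩, ?_⟩
  · intro c
    exact (S.nxt_spec _).1
  · intro v
    have b1 := hp1 v
    have b2 := hp1 (v + 1)
    have c1 := (hleft v (u - 1) (by omega)).1
    show p (v + 1 + 1) - (u - 1) = p (v + 1) - (u - 1) + gap (ty (v + 1))
    omega
  · intro v w j hj
    exact hagree v w j hj
  · intro v w hvw j hj
    show x (p (v + 1) - (u - 1) + j) = x (p (w + 1) - (u - 1) + j)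
    have b1 := hp1 v
    have b2 := hp1 w
    have c1 := (hleft v (u - 1) (by omega)).1
    have c2 := (hleft w (u - 1) (by omega)).1
    rcases Nat.lt_or_ge j (m + (u - 1)) with h1 | h1
    · exact hagree v w j h1
    · have key : ∀ t < m + gap (ty (v + 1)), x (p (v + 1) + t) = x (p (w + 1) + t) := by
        apply agree_of_keep hm1
        intro s hs
        rw [(hl (v + 1)).2 s hs, (hl (w + 1)).2 s (by rw [← hvw]; exact hs), hvw]
      have := key (j - (u - 1)) (by omega)
      rw [show p (v + 1) + (j - (u - 1)) = p (v + 1) - (u - 1) + j by omega,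
        show p (w + 1) + (j - (u - 1)) = p (w + 1) - (u - 1) + j by omega] at this
      exact this
  · have : gap true = S.nxt j1 := by simp [gap, rep]
    have h2 : gap false = S.nxt j2 := by simp [gap, rep]
    rw [this, h2]
    omega

/-- **Low complexity forces exponents larger than `3`**: if `2n - p(n)` is unbounded then there are,
for every `L`, runs of some period `l` and length at least `3l + L`. -/
theorem exp3 (hfin : ∀ n, (Set.range (blk x n)).Finite)
    (hP : ∀ G, ∃ n, (FI x n).ncard + G ≤ 2 * n) (L : ℕ) :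
    ∃ i l s, 1 ≤ l ∧ 2 * l + L ≤ s ∧ ∀ j < s, x (i + j) = x (i + l + j) := by
  by_cases hstep : ∀ n, (FI x n).ncard < (FI x (n + 1)).ncard
  · obtain ⟨m, h1, h2⟩ := choose_length hstep hP (2 * L + 2)
    obtain ⟨t, gap, S, h3⟩ := exists_loops hfin (by omega) h1
    rcases Nat.lt_or_ge (m + t) (gap true + L) with h4 | h4
    · exact S.main (by omega) false (by omega)
    · exact S.main (by omega) true h4
  · push Not at hstep
    obtain ⟨n, hn⟩ := hstep
    obtain ⟨i, l, hl, h⟩ := periodic_of_eq hfin n hn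
    exact ⟨i, l, 2 * l + L, hl, le_rfl, fun j _ => h j⟩

end Pool.Agent.H18.LC
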